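import Mathlib

/-!
# A finitely presented simple domain over every field: definitions

`V = Z^2` (written multiplicatively), `B = k[V]` = Laurent polynomials in `x, y`,
`Grp = F_2` acts on `V` by Sanov's matrices `(a,b) -> (a+2b,b)` and `(a,b) -> (a,b+2a)`,
`A` = localization of `B` at all `x^a y^b - 1` with `gcd(a,b) = 1`, `R = A * Grp` the skew group ring.
-/

set_option autoImplicit false

namespace Pool.Agent.Work.MP_16d7ed_al.SL

open Multiplicative

/-- `Z^2`, written multiplicatively. -/
abbrev V : Type := Multiplicative (ℤ × ℤ)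

/-- the free group of rank two -/
abbrev Grp : Type := FreeGroup (Fin 2)

/-- the vector `(a, b)` -/
def vec (a b : ℤ) : V := ofAdd (a, b)

/-- `(a,b) -> (a+2b,b)` and `(a,b) -> (a,b+2a)` -/
def e : Fin 2 → MulAut V
  | 0 => { toFun := fun v => vec ((toAdd v).1 + 2 * (toAdd v).2) (toAdd v).2
           invFun := fun v => vec ((toAdd v).1 - 2 * (toAdd v).2) (toAdd v).2
           left_inv := by intro v; simp [vec]
           right_inv := by intro v; simp [vec]
           map_mul' := by
            intro v w
            apply Multiplicative.toAdd.injective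
            simp only [vec, toAdd_ofAdd, toAdd_mul, Prod.fst_add, Prod.snd_add, Prod.mk_add_mk]
            ext <;> simp <;> ring }
  | 1 => { toFun := fun v => vec (toAdd v).1 ((toAdd v).2 + 2 * (toAdd v).1)
           invFun := fun v => vec (toAdd v).1 ((toAdd v).2 - 2 * (toAdd v).1)
           left_inv := by intro v; simp [vec]
           right_inv := by intro v; simp [vec]
           map_mul' := by
            intro v w
            apply Multiplicative.toAdd.injective
            simp only [vec, toAdd_ofAdd, toAdd_mul, Prod.fst_add, Prod.snd_add, Prod.mk_add_mk]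
            ext <;> simp <;> ring }

/-- the action of `F_2` on `Z^2` -/
def rho : Grp →* MulAut V := FreeGroup.lift e

/-- primitive vectors -/
def Prim (v : V) : Prop := IsCoprime (toAdd v).1 (toAdd v).2

theorem hom_eq (f : V →* V) (v : V) :
    f v = f (vec 1 0) ^ (toAdd v).1 * f (vec 0 1) ^ (toAdd v).2 := by
  rw [← map_zpow, ← map_zpow, ← map_mul]
  congr 1
  apply Multiplicative.toAdd.injective
  simp only [vec, toAdd_mul, toAdd_zpow, toAdd_ofAdd]
  ext <;> simp

theorem Prim.map {v : V} (h : Prim v) (u : MulAut V) : Prim (u v) := by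
  obtain ⟨c, d, hcd⟩ := h
  -- `v = u⁻¹ (u v)`
  have h1 : v = (u⁻¹ : MulAut V) (u v) := by simp
  set w := u v with hw
  have h2 := hom_eq (u⁻¹ : MulAut V).toMonoidHom w
  set p := (u⁻¹ : MulAut V).toMonoidHom (vec 1 0) with hp
  set q := (u⁻¹ : MulAut V).toMonoidHom (vec 0 1) with hq
  have h3 : v = p ^ (toAdd w).1 * q ^ (toAdd w).2 := by rw [h1]; exact h2
  refine ⟨c * (toAdd p).1 + d * (toAdd p).2, c * (toAdd q).1 + d * (toAdd q).2, ?_⟩
  have h4 : toAdd v = ((toAdd w).1 * (toAdd p).1 + (toAdd w).2 * (toAdd q).1,
      (toAdd w).1 * (toAdd p).2 + (toAdd w).2 * (toAdd q).2) := by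
    rw [h3]
    ext <;> simp
  rw [h4] at hcd
  simp only at hcd
  rw [← hcd]
  ring

variable (k : Type*) [Field k]

/-- Laurent polynomials in two variables over `k` -/
abbrev B : Type _ := MonoidAlgebra k V

/-- the monomial `x^a y^b` -/
noncomputable def mono (v : V) : B k := MonoidAlgebra.single v 1

theorem mono_mul (v w : V) : mono k (v * w) = mono k v * mono k w := by
  simp [mono, MonoidAlgebra.single_mul_single]

theorem mono_one : mono k 1 = 1 := rfl

/-- the multiplicative set generated by the elements `x^a y^b - 1`, `gcd(a,b) = 1` -/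
noncomputable def S : Submonoid (B k) := Submonoid.closure {b | ∃ v, Prim v ∧ b = mono k v - 1}

/-- the localization of `B` at `S` -/
abbrev A : Type _ := Localization (S k)

/-- the automorphism of `B` induced by an automorphism of `Z^2` -/
noncomputable def autB : MulAut V →* (B k ≃ₐ[k] B k) := MonoidAlgebra.domCongrAut

theorem autB_mono (u : MulAut V) (v : V) : autB k u (mono k v) = mono k (u v) := by
  simp [autB, mono]

theorem S_le_comap (u : MulAut V) : S k ≤ (S k).comap (autB k u : B k →+* B k) := by
  rw [S, Submonoid.closure_le]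
  rintro b ⟨v, hv, rfl⟩
  simp only [Submonoid.coe_comap, Set.mem_preimage, SetLike.mem_coe]
  apply Submonoid.subset_closure
  refine ⟨u v, hv.map u, ?_⟩
  rw [RingHom.coe_coe, map_sub, map_one]
  rw [autB_mono]

/-- the homomorphism of `A` induced by an automorphism of `Z^2` -/
noncomputable def mapA (u : MulAut V) : A k →+* A k :=
  IsLocalization.map (A k) (autB k u : B k →+* B k) (S_le_comap k u)

theorem mapA_alg (u : MulAut V) (b : B k) :
    mapA k u (algebraMap (B k) (A k) b) = algebraMap (B k) (A k) (autB k u b) := by
  rw [mapA, IsLocalization.map_eq]; rfl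

theorem mapA_one (a : A k) : mapA k 1 a = a := by
  have : mapA k 1 = RingHom.id (A k) := by
    apply IsLocalization.ringHom_ext (S k)
    refine RingHom.ext fun b => ?_
    simp only [RingHom.comp_apply, mapA_alg, map_one, RingHom.id_apply]
    rfl
  rw [this]; rfl

theorem mapA_mul (u w : MulAut V) (a : A k) : mapA k (u * w) a = mapA k u (mapA k w a) := by
  have : mapA k (u * w) = (mapA k u).comp (mapA k w) := by
    apply IsLocalization.ringHom_ext (S k)
    refine RingHom.ext fun b => ?_
    simp only [RingHom.comp_apply, mapA_alg, map_mul]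
    rfl
  rw [this]; rfl

/-- the action of `F_2` on `A` -/
noncomputable instance : MulSemiringAction Grp (A k) where
  smul g a := mapA k (rho g) a
  one_smul a := by
    show mapA k (rho 1) a = a
    rw [map_one, mapA_one]
  mul_smul g h a := by
    show mapA k (rho (g * h)) a = mapA k (rho g) (mapA k (rho h) a)
    rw [map_mul, mapA_mul]
  smul_zero g := map_zero (mapA k (rho g))
  smul_add g := map_add (mapA k (rho g))
  smul_one g := map_one (mapA k (rho g))
  smul_mul g := map_mul (mapA k (rho g))

theorem smul_def (g : Grp) (a : A k) : g • a = mapA k (rho g) a := rfl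

theorem smul_alg (g : Grp) (b : B k) :
    g • (algebraMap (B k) (A k) b) = algebraMap (B k) (A k) (autB k (rho g) b) :=
  mapA_alg k _ b

/-- the image of `x^a y^b` in `A` -/
noncomputable def m (v : V) : A k := algebraMap (B k) (A k) (mono k v)

theorem m_mul (v w : V) : m k (v * w) = m k v * m k w := by
  rw [m, mono_mul, map_mul]; rfl

theorem m_one : m k 1 = 1 := by rw [m, mono_one, map_one]

theorem smul_m (g : Grp) (v : V) : g • m k v = m k (rho g v) := by
  rw [m, smul_alg, autB_mono]; rfl

theorem isUnit_m_sub_one {v : V} (h : Prim v) : IsUnit (m k v - 1) := by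
  have h1 : mono k v - 1 ∈ S k := Submonoid.subset_closure ⟨v, h, rfl⟩
  have := IsLocalization.map_units (A k) (⟨_, h1⟩ : S k)
  simpa [m] using this

theorem smul_algebraMap_k (g : Grp) (c : k) :
    g • (algebraMap k (A k) c) = algebraMap k (A k) c := by
  rw [IsScalarTower.algebraMap_apply k (B k) (A k), smul_alg, AlgEquiv.commutes]

instance : SMulCommClass Grp k (A k) where
  smul_comm g c a := by
    rw [Algebra.smul_def, Algebra.smul_def, smul_mul', smul_algebraMap_k]

/-- The algebra: the skew group ring `A * F_2`. -/
abbrev R : Type _ := SkewMonoidAlgebra (A k) Grp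

noncomputable example : Ring (R k) := inferInstance
noncomputable example : Algebra k (R k) := inferInstance

end Pool.Agent.Work.MP_16d7ed_al.SL
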