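import Pool.Agent.Work.MP_16d7ed_al.SL.Defs

/-!
# MODULE Eucl (S-M): the orbits of primitive vectors

PROOF. Strong induction on `|a| + |b|`, `v = (a,b)` coprime.
If `a = 0`: `b = 1` or `b = -1`: `v = vec 0 1` or its inverse (g = 1). Same for `b = 0`.
If `|a| = |b|` (both nonzero): coprime gives `|a| = |b| = 1`: `v = vec 1 1`, or `(vec 1 1)⁻¹ = (-1,-1)`, or `(1,-1)`,
`(-1,1)`: `e 0 (1,-1) = (1-2,-1) = (-1,-1)`, so `(1,-1) = rho (of 0)⁻¹ ((vec 1 1)⁻¹) = (rho (of 0)⁻¹ (vec 1 1))⁻¹`, and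
`(-1,1) = rho (of 0)⁻¹ (vec 1 1)`.
If `|a| > |b| > 0`: one of `(e 0) v = (a+2b,b)`, `(e 0)⁻¹ v = (a-2b,b)` has first coordinate of absolute value `< |a|`
(if `a, b` have the same sign then `|a-2b| < |a|` because `0 < |b| < |a|`, otherwise `|a+2b| < |a|`); it is primitive
(`Prim.map`); apply induction to `u v`, `v = rho g (u v)` with `g = of 0` or its inverse, and `rho (g*h) = rho g * rho h`.
If `|b| > |a| > 0`: same with `e 1`.
-/

set_option autoImplicit false

namespace Pool.Agent.Work.MP_16d7ed_al.SL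

open Multiplicative

private def Orb (v : V) : Prop := ∃ g : Grp, ∃ w : V,
    (w = vec 1 0 ∨ w = vec 0 1 ∨ w = vec 1 1) ∧ (v = rho g w ∨ v = (rho g w)⁻¹)

private theorem orb_of (h : Grp) (v : V) (H : Orb (rho h v)) : Orb v := by
  obtain ⟨g, w, hw, h1⟩ := H
  have h2 : v = rho h⁻¹ (rho h v) := by simp
  refine ⟨h⁻¹ * g, w, hw, ?_⟩
  rcases h1 with h1 | h1
  · left
    rw [h2, h1, map_mul, MulAut.mul_apply]
  · right
    rw [h2, h1, map_mul, MulAut.mul_apply, map_inv]

private theorem rho0 (a b : ℤ) : rho (FreeGroup.of 0) (vec a b) = vec (a + 2 * b) b := by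
  simp only [rho, FreeGroup.lift_apply_of]
  rfl

private theorem rho0' (a b : ℤ) : rho (FreeGroup.of 0)⁻¹ (vec a b) = vec (a - 2 * b) b := by
  simp only [rho, map_inv, FreeGroup.lift_apply_of]
  rfl

private theorem rho1 (a b : ℤ) : rho (FreeGroup.of 1) (vec a b) = vec a (b + 2 * a) := by
  simp only [rho, FreeGroup.lift_apply_of]
  rfl

private theorem rho1' (a b : ℤ) : rho (FreeGroup.of 1)⁻¹ (vec a b) = vec a (b - 2 * a) := by
  simp only [rho, map_inv, FreeGroup.lift_apply_of]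
  rfl

private theorem vec_inv (a b : ℤ) : (vec a b)⁻¹ = vec (-a) (-b) := rfl

private theorem orb_aux (n : ℕ) : ∀ a b : ℤ, a.natAbs + b.natAbs = n → IsCoprime a b → Orb (vec a b) := by
  induction n using Nat.strong_induction_on with
  | _ n ih =>
    intro a b hn hab
    have hone : ∀ w : V, (w = vec 1 0 ∨ w = vec 0 1 ∨ w = vec 1 1) → Orb w ∧ Orb w⁻¹ := by
      intro w hw
      exact ⟨⟨1, w, hw, Or.inl (by simp)⟩, ⟨1, w, hw, Or.inr (by simp)⟩⟩
    by_cases ha : a = 0
    · subst ha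
      rw [isCoprime_zero_left, Int.isUnit_iff] at hab
      rcases hab with rfl | rfl
      · exact (hone _ (Or.inr (Or.inl rfl))).1
      · exact (hone (vec 0 1) (Or.inr (Or.inl rfl))).2
    by_cases hb : b = 0
    · subst hb
      rw [isCoprime_zero_right, Int.isUnit_iff] at hab
      rcases hab with rfl | rfl
      · exact (hone _ (Or.inl rfl)).1
      · exact (hone (vec 1 0) (Or.inl rfl)).2
    have key : ∀ (u : Grp) (a' b' : ℤ), rho u (vec a b) = vec a' b' → a'.natAbs + b'.natAbs < n →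
        Orb (vec a b) := by
      intro u a' b' hu hlt
      apply orb_of u
      rw [hu]
      refine ih _ hlt a' b' rfl ?_
      have : Prim (rho u (vec a b)) := Prim.map (v := vec a b) hab _
      rw [hu] at this
      exact this
    rcases lt_trichotomy a.natAbs b.natAbs with hlt | heq | hgt
    · by_cases hs : (b + 2 * a).natAbs < b.natAbs
      · exact key (FreeGroup.of 1) _ _ (rho1 a b) (by omega)
      · exact key (FreeGroup.of 1)⁻¹ _ _ (rho1' a b) (by omega)
    · have h1 : a.natAbs = 1 := by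
        have h2 := Int.isCoprime_iff_gcd_eq_one.1 hab
        rw [Int.gcd_def, heq, Nat.gcd_self] at h2
        omega
      have h3 : (a = 1 ∨ a = -1) ∧ (b = 1 ∨ b = -1) := by omega
      obtain ⟨rfl | rfl, rfl | rfl⟩ := h3
      · exact (hone _ (Or.inr (Or.inr rfl))).1
      · apply orb_of (FreeGroup.of 0)
        rw [rho0]
        exact (hone (vec 1 1) (Or.inr (Or.inr rfl))).2
      · apply orb_of (FreeGroup.of 0)
        rw [rho0]
        exact (hone (vec 1 1) (Or.inr (Or.inr rfl))).1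
      · exact (hone (vec 1 1) (Or.inr (Or.inr rfl))).2
    · by_cases hs : (a + 2 * b).natAbs < a.natAbs
      · exact key (FreeGroup.of 0) _ _ (rho0 a b) (by omega)
      · exact key (FreeGroup.of 0)⁻¹ _ _ (rho0' a b) (by omega)

theorem prim_orbit (v : V) (h : Prim v) : ∃ g : Grp, ∃ w : V,
    (w = vec 1 0 ∨ w = vec 0 1 ∨ w = vec 1 1) ∧ (v = rho g w ∨ v = (rho g w)⁻¹) :=
  orb_aux _ (toAdd v).1 (toAdd v).2 rfl h

end Pool.Agent.Work.MP_16d7ed_al.SL
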