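import Pool.Agent.Work.MP_16d7ed_al.SL.Eucl

/-!
# MODULE Gen (M): generators of `R`

PROOF. Let `D` be a subalgebra as in the theorem. Write `s g a = SkewMonoidAlgebra.single g a`;
`s g a * s h b = s (g*h) (a * g • b)`.
(1) `s g 1 ∈ D` for all `g` (FreeGroup induction, `s 1 1 = 1`).
(2) `s 1 (m v) ∈ D` for all `v`: `v = (vec 1 0)^a (vec 0 1)^b` (zpow), `m` multiplicative, both signs given; and
`s 1 (algebraMap b) ∈ D` for all `b : B k` (b is a linear combination of monomials, `D` is a `k`-subalgebra).
(3) If `s 1 a ∈ D` then `s 1 (g • a) = s g 1 * s 1 a * s g⁻¹ 1 ∈ D`.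
(4) for `v` primitive the inverse of the unit `m v - 1` has `s 1 (inverse) ∈ D`: by `prim_orbit` `v = rho g w` or its inverse;
for `w` the inverse of `m w - 1` is in `D` by hypothesis (`hu, hv, hw`); `inverse (m (rho g w) - 1) = g • inverse (m w - 1)`
(`smul_m`), and `inverse (m u⁻¹ - 1) = - m u * inverse (m u - 1)`.
(5) So `s 1 ((s : A)⁻¹) ∈ D` for all `s ∈ S k` (closure induction, A is commutative), hence `s 1 a ∈ D` for all `a` (every
element of `A` is `algebraMap b * (algebraMap s)⁻¹`), hence `s g a = s 1 a * s g 1 ∈ D`, hence `D = ⊤`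
(`SkewMonoidAlgebra.induction_on` or `sum_single`).
-/

set_option autoImplicit false

namespace Pool.Agent.Work.MP_16d7ed_al.SL

open Multiplicative SkewMonoidAlgebra

variable (k : Type*) [Field k]

/-- the elements `a` of `A` with `single 1 a ∈ D` -/
private def T (D : Subalgebra k (R k)) : Subalgebra k (A k) where
  carrier := {a | single (1 : Grp) a ∈ D}
  mul_mem' := by
    intro a b ha hb
    simp only [Set.mem_ofPred_eq] at ha hb ⊢
    have h := D.mul_mem ha hb
    rwa [single_mul_single, mul_one, one_smul] at h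
  one_mem' := D.one_mem
  add_mem' := by
    intro a b ha hb
    simp only [Set.mem_ofPred_eq] at ha hb ⊢
    have h := D.add_mem ha hb
    rwa [← single_add] at h
  zero_mem' := by
    simp only [Set.mem_ofPred_eq, single_zero]
    exact D.zero_mem
  algebraMap_mem' := by
    intro c
    simp only [Set.mem_ofPred_eq]
    have h := D.smul_mem D.one_mem c
    rw [show (1 : R k) = single (1 : Grp) (1 : A k) from rfl, smul_single] at h
    rwa [Algebra.algebraMap_eq_smul_one]

private theorem mem_T (D : Subalgebra k (R k)) (a : A k) :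
    a ∈ T k D ↔ single (1 : Grp) a ∈ D := Iff.rfl

private theorem inv_eq_of_mul {M : Type*} [CommRing M] {x y : M} (h : x * y = 1) :
    Ring.inverse y = x := by
  have hu : IsUnit y := IsUnit.of_mul_eq_one x (by rw [mul_comm]; exact h)
  calc Ring.inverse y = (x * y) * Ring.inverse y := by rw [h, one_mul]
    _ = x * (y * Ring.inverse y) := by ring
    _ = x := by rw [Ring.mul_inverse_cancel _ hu, mul_one]

private theorem single_g (D : Subalgebra k (R k))
    (ht : ∀ i : Fin 2, single (FreeGroup.of i) (1 : A k) ∈ D)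
    (ht' : ∀ i : Fin 2, single (FreeGroup.of i)⁻¹ (1 : A k) ∈ D) (g : Grp) :
    single g (1 : A k) ∈ D := by
  induction g using FreeGroup.induction_on with
  | C1 => exact D.one_mem
  | of i => exact ht i
  | inv_of i _ => exact ht' i
  | mul g h hg hh =>
    have := D.mul_mem hg hh
    rwa [single_mul_single, smul_one, mul_one] at this

private theorem smul_T (D : Subalgebra k (R k)) (hg : ∀ g : Grp, single g (1 : A k) ∈ D)
    (g : Grp) {a : A k} (ha : a ∈ T k D) : g • a ∈ T k D := by
  rw [mem_T] at ha ⊢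
  have h := D.mul_mem (D.mul_mem (hg g) ha) (hg g⁻¹)
  rw [single_mul_single, single_mul_single, smul_one, mul_one, mul_one, one_mul,
    mul_inv_cancel] at h
  exact h

private theorem m_inv_mul (v : V) : m k v⁻¹ * m k v = 1 := by
  rw [← m_mul, inv_mul_cancel, m_one]

private theorem zpow_T (T' : Subalgebra k (A k)) (v : V) (h : m k v ∈ T') (h' : m k v⁻¹ ∈ T')
    (n : ℤ) : m k (v ^ n) ∈ T' := by
  have key : ∀ (w : V), m k w ∈ T' → ∀ n : ℕ, m k (w ^ n) ∈ T' := by
    intro w hw n
    induction n with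
    | zero => rw [pow_zero, m_one]; exact T'.one_mem
    | succ n ih => rw [pow_succ, m_mul]; exact T'.mul_mem ih hw
  obtain ⟨j, rfl | rfl⟩ := n.eq_nat_or_neg
  · rw [zpow_natCast]; exact key v h j
  · rw [zpow_neg, zpow_natCast, ← inv_pow]; exact key _ h' j

private theorem vec_inv (a b : ℤ) : (vec a b)⁻¹ = vec (-a) (-b) := rfl

private theorem m_T (T' : Subalgebra k (A k))
    (hx : m k (vec 1 0) ∈ T') (hx' : m k (vec (-1) 0) ∈ T')
    (hy : m k (vec 0 1) ∈ T') (hy' : m k (vec 0 (-1)) ∈ T') (v : V) : m k v ∈ T' := by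
  have h := hom_eq (MonoidHom.id V) v
  simp only [MonoidHom.id_apply] at h
  rw [h, m_mul]
  refine T'.mul_mem (zpow_T k T' _ hx ?_ _) (zpow_T k T' _ hy ?_ _)
  · rw [vec_inv, neg_zero]; exact hx'
  · rw [vec_inv, neg_zero]; exact hy'

private theorem alg_T (T' : Subalgebra k (A k)) (hm : ∀ v, m k v ∈ T') (b : B k) :
    algebraMap (B k) (A k) b ∈ T' := by
  induction b using MonoidAlgebra.induction_linear with
  | zero => rw [map_zero]; exact T'.zero_mem
  | add f g hf hg => rw [map_add]; exact T'.add_mem hf hg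
  | single v c =>
    have h1 : (MonoidAlgebra.single v c : B k) = c • mono k v := by
      rw [mono, MonoidAlgebra.smul_single, smul_eq_mul, mul_one]
    have h2 : algebraMap (B k) (A k) (c • mono k v) = c • m k v := by
      rw [m, Algebra.smul_def, map_mul, ← IsScalarTower.algebraMap_apply k (B k) (A k),
        ← Algebra.smul_def]
    rw [h1, h2]
    exact T'.smul_mem (hm v) c

private theorem inv_smul_eq (g : Grp) (w : V) (hw : Prim w) :
    Ring.inverse (m k (rho g w) - 1) = g • Ring.inverse (m k w - 1) := by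
  apply inv_eq_of_mul
  have h1 : m k (rho g w) - 1 = g • (m k w - 1) := by
    rw [smul_sub, smul_one, smul_m]
  rw [h1, ← smul_mul', Ring.inverse_mul_cancel _ (isUnit_m_sub_one k hw), smul_one]

private theorem inv_inv_eq (u : V) (hu : Prim u) :
    Ring.inverse (m k u⁻¹ - 1) = - m k u * Ring.inverse (m k u - 1) := by
  apply inv_eq_of_mul
  have h1 := m_inv_mul k u
  have h2 := Ring.inverse_mul_cancel _ (isUnit_m_sub_one k hu)
  have h3 : - m k u * Ring.inverse (m k u - 1) * (m k u⁻¹ - 1)
      = Ring.inverse (m k u - 1) * (m k u - m k u⁻¹ * m k u) := by ring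
  rw [h3, h1, h2]

theorem gen (D : Subalgebra k (R k))
    (hx : single 1 (m k (vec 1 0)) ∈ D) (hx' : single 1 (m k (vec (-1) 0)) ∈ D)
    (hy : single 1 (m k (vec 0 1)) ∈ D) (hy' : single 1 (m k (vec 0 (-1))) ∈ D)
    (ht : ∀ i : Fin 2, single (FreeGroup.of i) (1 : A k) ∈ D)
    (ht' : ∀ i : Fin 2, single (FreeGroup.of i)⁻¹ (1 : A k) ∈ D)
    (hu : single 1 (Ring.inverse (m k (vec 1 0) - 1)) ∈ D)
    (hv : single 1 (Ring.inverse (m k (vec 0 1) - 1)) ∈ D)
    (hw : single 1 (Ring.inverse (m k (vec 1 1) - 1)) ∈ D) : D = ⊤ := by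
  have hg := single_g k D ht ht'
  have hm : ∀ v, m k v ∈ T k D := m_T k (T k D) hx hx' hy hy'
  have hb : ∀ b : B k, algebraMap (B k) (A k) b ∈ T k D := alg_T k (T k D) hm
  have hprim : ∀ v, Prim v → Ring.inverse (m k v - 1) ∈ T k D := by
    intro v hv'
    obtain ⟨g, w, hw', h⟩ := prim_orbit v hv'
    have hpw : Prim w := by
      rcases hw' with rfl | rfl | rfl
      · exact isCoprime_one_left
      · exact isCoprime_one_right
      · exact isCoprime_one_left
    have hwT : Ring.inverse (m k w - 1) ∈ T k D := by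
      rcases hw' with rfl | rfl | rfl
      · exact hu
      · exact hv
      · exact hw
    have hgw : Ring.inverse (m k (rho g w) - 1) ∈ T k D := by
      rw [inv_smul_eq k g w hpw]
      exact smul_T k D hg g hwT
    rcases h with rfl | rfl
    · exact hgw
    · rw [inv_inv_eq k _ (hpw.map (rho g))]
      exact (T k D).mul_mem ((T k D).neg_mem (hm _)) hgw
  have hS : ∀ s ∈ S k, ∃ t ∈ T k D, t * algebraMap (B k) (A k) s = 1 := by
    intro s hs
    induction hs using Submonoid.closure_induction with
    | mem x hx1 =>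
      obtain ⟨v, hv1, rfl⟩ := hx1
      refine ⟨_, hprim v hv1, ?_⟩
      rw [map_sub, map_one]
      exact Ring.inverse_mul_cancel _ (isUnit_m_sub_one k hv1)
    | one => exact ⟨1, (T k D).one_mem, by rw [map_one, one_mul]⟩
    | mul x y _ _ hx1 hy1 =>
      obtain ⟨t1, ht1, h1⟩ := hx1
      obtain ⟨t2, ht2, h2⟩ := hy1
      refine ⟨t1 * t2, (T k D).mul_mem ht1 ht2, ?_⟩
      rw [map_mul]
      calc t1 * t2 * (algebraMap (B k) (A k) x * algebraMap (B k) (A k) y)
          = (t1 * algebraMap (B k) (A k) x) * (t2 * algebraMap (B k) (A k) y) := by ring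
        _ = 1 := by rw [h1, h2, one_mul]
  have hall : ∀ a : A k, a ∈ T k D := by
    intro a
    obtain ⟨⟨b, s⟩, h⟩ := IsLocalization.surj (S k) a
    obtain ⟨t, htT, h1⟩ := hS s.1 s.2
    have h2 : a = t * algebraMap (B k) (A k) b := by
      rw [← h]
      calc a = a * (t * algebraMap (B k) (A k) s.1) := by rw [h1, mul_one]
        _ = t * (a * algebraMap (B k) (A k) s.1) := by ring
    rw [h2]
    exact (T k D).mul_mem htT (hb b)
  rw [eq_top_iff]
  rintro r -
  induction r using SkewMonoidAlgebra.induction_on with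
  | zero => exact D.zero_mem
  | single g a =>
    have h := D.mul_mem (hall a) (hg g)
    rw [single_mul_single, one_mul, one_smul, mul_one] at h
    exact h
  | add f g hf hg1 => exact D.add_mem hf hg1

end Pool.Agent.Work.MP_16d7ed_al.SL
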