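import Pool.Agent.Work.MP_16d7ed_al.SL.Univ
import Pool.Agent.Work.MP_16d7ed_al.SL.Gen

/-!
# MODULE FP (M-L): `R` is finitely presented

PROOF. `n = 11`, `F = FreeAlgebra k (Fin 11)` with generators (in this order) `x, x', y, y', s, s', t, t', u, v, w`.
`f : F → R` sends them to `single 1 (m (vec 1 0))`, `single 1 (m (vec (-1) 0))`, `single 1 (m (vec 0 1))`,
`single 1 (m (vec 0 (-1)))`, `single (of 0) 1`, `single (of 0)⁻¹ 1`, `single (of 1) 1`, `single (of 1)⁻¹ 1`,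
`single 1 (Ring.inverse (m (vec 1 0) - 1))`, same for `vec 0 1`, `vec 1 1`. It is surjective by `gen` applied to `f.range`.
Relations (finite set `Rel ⊆ F`): `x x' - 1, x' x - 1, y y' - 1, y' y - 1, s s' - 1, s' s - 1, t t' - 1, t' t - 1, x y - y x,
s x - x s, s y - x^2 y s, t y - y t, t x - x y^2 t, u (x-1) - 1, (x-1) u - 1, v (y-1) - 1, (y-1) v - 1, w (x y - 1) - 1,
(x y - 1) w - 1`. All are mapped to `0` by `f` (`single_mul_single`, `smul_m`, `rho`; `Ring.inverse_mul_cancel` with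
`isUnit_m_sub_one`; the three vectors are primitive).
So `x ∈ span Rel → f x = 0` (the kernel of `f` is a two-sided ideal: `TwoSidedIdeal.ker`, `TwoSidedIdeal.mem_ker`,
`TwoSidedIdeal.span_le`).
Conversely let `I = TwoSidedIdeal.span Rel`, `P = I.ringCon.Quotient`, `π : F → P` (`k`-algebra map; algebra structure:
`RingCon` has an `Algebra` instance on the quotient, `RingCon.mk'`, or use `RingQuot`). In `P` the images of the generators
satisfy the hypotheses of `univ` (units from `x x' = 1 = x' x`, ...), so there is `φ : R → P` with `φ (f g) = π g` for the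
generators `x, y, s, t`; for `x'`: `φ (f x')` is inverse to `φ (f x) = π x`, so equal to `π x'`; same for `y', s', t'`; for `u`:
`φ (f u)` is inverse to `φ (f x) - 1 = π x - 1`, so equal to `π u`; same `v, w` (`m (vec 1 1) = m (vec 1 0) * m (vec 0 1)`).
So `φ ∘ f = π` (`FreeAlgebra.hom_ext`), and `f z = 0 → π z = 0 → z ∈ I`.
-/

set_option autoImplicit false

namespace Pool.Agent.Work.MP_16d7ed_al.SL

/-- the relations, for a family of eleven elements -/
private def Sat {P : Type*} [Ring P] (g : Fin 11 → P) : Prop :=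
  (g 0 * g 1 = 1 ∧ g 1 * g 0 = 1 ∧ g 2 * g 3 = 1 ∧ g 3 * g 2 = 1 ∧ g 4 * g 5 = 1 ∧
    g 5 * g 4 = 1 ∧ g 6 * g 7 = 1 ∧ g 7 * g 6 = 1) ∧
  (g 0 * g 2 = g 2 * g 0 ∧ g 4 * g 0 = g 0 * g 4 ∧ g 4 * g 2 = g 0 ^ 2 * g 2 * g 4 ∧
    g 6 * g 2 = g 2 * g 6 ∧ g 6 * g 0 = g 0 * g 2 ^ 2 * g 6) ∧
  (g 8 * (g 0 - 1) = 1 ∧ (g 0 - 1) * g 8 = 1 ∧ g 9 * (g 2 - 1) = 1 ∧ (g 2 - 1) * g 9 = 1 ∧
    g 10 * (g 0 * g 2 - 1) = 1 ∧ (g 0 * g 2 - 1) * g 10 = 1)

/-- the list of relators -/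
private def rels {P : Type*} [Ring P] (g : Fin 11 → P) : List P :=
  [g 0 * g 1 - 1, g 1 * g 0 - 1, g 2 * g 3 - 1, g 3 * g 2 - 1, g 4 * g 5 - 1, g 5 * g 4 - 1,
    g 6 * g 7 - 1, g 7 * g 6 - 1, g 0 * g 2 - g 2 * g 0, g 4 * g 0 - g 0 * g 4,
    g 4 * g 2 - g 0 ^ 2 * g 2 * g 4, g 6 * g 2 - g 2 * g 6, g 6 * g 0 - g 0 * g 2 ^ 2 * g 6,
    g 8 * (g 0 - 1) - 1, (g 0 - 1) * g 8 - 1, g 9 * (g 2 - 1) - 1, (g 2 - 1) * g 9 - 1,
    g 10 * (g 0 * g 2 - 1) - 1, (g 0 * g 2 - 1) * g 10 - 1]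

private theorem rels_iff {k P Q : Type*} [CommRing k] [Ring P] [Ring Q] [Algebra k P]
    [Algebra k Q] (φ : P →ₐ[k] Q) (g : Fin 11 → P) :
    (∀ r ∈ rels g, φ r = 0) ↔ Sat fun i => φ (g i) := by
  simp only [rels, Sat, List.forall_mem_cons, List.not_mem_nil, map_sub, map_mul, map_one,
    map_pow, sub_eq_zero, false_imp_iff, implies_true, and_true, and_assoc]

variable (k : Type*) [Field k]

private noncomputable def sx : A k →+* R k := SkewMonoidAlgebra.singleOneRingHom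

private theorem sx_eq (a : A k) : sx k a = SkewMonoidAlgebra.single 1 a := rfl

private theorem sg_sx (g : Grp) (a : A k) :
    (SkewMonoidAlgebra.single g 1 : R k) * sx k a = sx k (g • a) * SkewMonoidAlgebra.single g 1 := by
  rw [sx_eq, sx_eq, SkewMonoidAlgebra.single_mul_single, SkewMonoidAlgebra.single_mul_single,
    one_mul, mul_one, one_mul, smul_one, mul_one]

private theorem sg_mul (g h : Grp) :
    (SkewMonoidAlgebra.single g 1 : R k) * SkewMonoidAlgebra.single h 1 =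
      SkewMonoidAlgebra.single (g * h) 1 := by
  rw [SkewMonoidAlgebra.single_mul_single, smul_one, mul_one]

/-- the generators -/
private noncomputable def gR : Fin 11 → R k :=
  ![sx k (m k (vec 1 0)), sx k (m k (vec (-1) 0)), sx k (m k (vec 0 1)), sx k (m k (vec 0 (-1))),
    SkewMonoidAlgebra.single (FreeGroup.of 0) 1, SkewMonoidAlgebra.single (FreeGroup.of 0)⁻¹ 1,
    SkewMonoidAlgebra.single (FreeGroup.of 1) 1, SkewMonoidAlgebra.single (FreeGroup.of 1)⁻¹ 1,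
    sx k (Ring.inverse (m k (vec 1 0) - 1)), sx k (Ring.inverse (m k (vec 0 1) - 1)),
    sx k (Ring.inverse (m k (vec 1 1) - 1))]

private theorem m_vec (a b c d : ℤ) :
    m k (vec a b) * m k (vec c d) = m k (vec (a + c) (b + d)) := by
  rw [← m_mul]
  rfl

private theorem m_vec0 : m k (vec 0 0) = 1 := m_one k

private theorem rho0 (a b : ℤ) : rho (FreeGroup.of 0) (vec a b) = vec (a + 2 * b) b := by
  unfold rho
  rw [FreeGroup.lift_apply_of]
  rfl

private theorem rho1 (a b : ℤ) : rho (FreeGroup.of 1) (vec a b) = vec a (b + 2 * a) := by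
  unfold rho
  rw [FreeGroup.lift_apply_of]
  rfl

private theorem prim10 : Prim (vec 1 0) := ⟨1, 0, by simp [vec]⟩

private theorem prim01 : Prim (vec 0 1) := ⟨0, 1, by simp [vec]⟩

private theorem prim11 : Prim (vec 1 1) := ⟨1, 0, by simp [vec]⟩

private theorem sx_sub (a : A k) : sx k a - 1 = sx k (a - 1) :=
  ((map_sub (sx k) a 1).trans (congrArg (fun z => sx k a - z) (map_one (sx k)))).symm

private theorem inv_l {v : V} (h : Prim v) :
    sx k (Ring.inverse (m k v - 1)) * (sx k (m k v) - 1) = 1 := by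
  rw [sx_sub, ← map_mul, Ring.inverse_mul_cancel _ (isUnit_m_sub_one k h), map_one]

private theorem inv_r {v : V} (h : Prim v) :
    (sx k (m k v) - 1) * sx k (Ring.inverse (m k v - 1)) = 1 := by
  rw [sx_sub, ← map_mul, Ring.mul_inverse_cancel _ (isUnit_m_sub_one k h), map_one]

private theorem sat_gR : Sat (gR k) := by
  have hXY : sx k (m k (vec 1 0)) * sx k (m k (vec 0 1)) = sx k (m k (vec 1 1)) := by
    rw [← map_mul, m_vec]
    norm_num
  have hs1 : ∀ g : Grp, (SkewMonoidAlgebra.single g 1 : R k) * SkewMonoidAlgebra.single g⁻¹ 1 = 1 := by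
    intro g
    rw [sg_mul, mul_inv_cancel]
    rfl
  have hs2 : ∀ g : Grp, (SkewMonoidAlgebra.single g⁻¹ 1 : R k) * SkewMonoidAlgebra.single g 1 = 1 := by
    intro g
    rw [sg_mul, inv_mul_cancel]
    rfl
  refine ⟨⟨?_, ?_, ?_, ?_, hs1 _, hs2 _, hs1 _, hs2 _⟩, ⟨?_, ?_, ?_, ?_, ?_⟩,
    ⟨inv_l k prim10, inv_r k prim10, inv_l k prim01, inv_r k prim01, ?_, ?_⟩⟩
  · show sx k (m k (vec 1 0)) * sx k (m k (vec (-1) 0)) = 1
    rw [← map_mul, m_vec, ← map_one (sx k), ← m_vec0 k]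
    norm_num
  · show sx k (m k (vec (-1) 0)) * sx k (m k (vec 1 0)) = 1
    rw [← map_mul, m_vec, ← map_one (sx k), ← m_vec0 k]
    norm_num
  · show sx k (m k (vec 0 1)) * sx k (m k (vec 0 (-1))) = 1
    rw [← map_mul, m_vec, ← map_one (sx k), ← m_vec0 k]
    norm_num
  · show sx k (m k (vec 0 (-1))) * sx k (m k (vec 0 1)) = 1
    rw [← map_mul, m_vec, ← map_one (sx k), ← m_vec0 k]
    norm_num
  · show sx k (m k (vec 1 0)) * sx k (m k (vec 0 1)) = sx k (m k (vec 0 1)) * sx k (m k (vec 1 0))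
    rw [← map_mul, ← map_mul, mul_comm]
  · show SkewMonoidAlgebra.single (FreeGroup.of 0) 1 * sx k (m k (vec 1 0)) =
      sx k (m k (vec 1 0)) * SkewMonoidAlgebra.single (FreeGroup.of 0) 1
    rw [sg_sx, smul_m, rho0]
    norm_num
  · show SkewMonoidAlgebra.single (FreeGroup.of 0) 1 * sx k (m k (vec 0 1)) =
      sx k (m k (vec 1 0)) ^ 2 * sx k (m k (vec 0 1)) * SkewMonoidAlgebra.single (FreeGroup.of 0) 1
    rw [sg_sx, smul_m, rho0, sq, ← map_mul, ← map_mul, m_vec, m_vec]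
    norm_num
  · show SkewMonoidAlgebra.single (FreeGroup.of 1) 1 * sx k (m k (vec 0 1)) =
      sx k (m k (vec 0 1)) * SkewMonoidAlgebra.single (FreeGroup.of 1) 1
    rw [sg_sx, smul_m, rho1]
    norm_num
  · show SkewMonoidAlgebra.single (FreeGroup.of 1) 1 * sx k (m k (vec 1 0)) =
      sx k (m k (vec 1 0)) * sx k (m k (vec 0 1)) ^ 2 * SkewMonoidAlgebra.single (FreeGroup.of 1) 1
    rw [sg_sx, smul_m, rho1, sq, ← map_mul, ← map_mul, m_vec, m_vec]
    norm_num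
  · show sx k (Ring.inverse (m k (vec 1 1) - 1)) *
      (sx k (m k (vec 1 0)) * sx k (m k (vec 0 1)) - 1) = 1
    rw [hXY]
    exact inv_l k prim11
  · show (sx k (m k (vec 1 0)) * sx k (m k (vec 0 1)) - 1) *
      sx k (Ring.inverse (m k (vec 1 1) - 1)) = 1
    rw [hXY]
    exact inv_r k prim11

/-- the universal property, for the list of generators -/
private theorem univ_sat {P : Type*} [Ring P] [Algebra k P] (g : Fin 11 → P) (hg : Sat g) :
    ∃ φ : R k →ₐ[k] P, ∀ i, φ (gR k i) = g i := by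
  obtain ⟨⟨h1, h2, h3, h4, h5, h6, h7, h8⟩, ⟨h9, h10, h11, h12, h13⟩,
    ⟨h14, h15, h16, h17, h18, h19⟩⟩ := hg
  obtain ⟨φ, hφX, hφY, hφT⟩ := univ k (P := P) ⟨g 0, g 1, h1, h2⟩ ⟨g 2, g 3, h3, h4⟩
    ![⟨g 4, g 5, h5, h6⟩, ⟨g 6, g 7, h7, h8⟩] (Units.ext h9) (Units.ext h10) (Units.ext h11)
    (Units.ext h12) (Units.ext h13) ⟨⟨g 0 - 1, g 8, h15, h14⟩, rfl⟩
    ⟨⟨g 2 - 1, g 9, h17, h16⟩, rfl⟩ ⟨⟨g 0 * g 2 - 1, g 10, h19, h18⟩, rfl⟩
  obtain ⟨⟨r1, r2, r3, r4, r5, r6, r7, r8⟩, -, ⟨r14, r15, r16, r17, r18, r19⟩⟩ := sat_gR k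
  have e0 : φ (gR k 0) = g 0 := hφX
  have e2 : φ (gR k 2) = g 2 := hφY
  have e4 : φ (gR k 4) = g 4 := hφT 0
  have e6 : φ (gR k 6) = g 6 := hφT 1
  have key : ∀ a b : R k, ∀ a' b' : P, b * a = 1 → φ a = a' → a' * b' = 1 → φ b = b' := by
    intro a b a' b' hba ha hab
    have h := congrArg φ hba
    rw [map_mul, map_one, ha] at h
    exact left_inv_eq_right_inv h hab
  have e1 : φ (gR k 1) = g 1 := key _ _ _ _ r2 e0 h1
  have e3 : φ (gR k 3) = g 3 := key _ _ _ _ r4 e2 h3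
  have e5 : φ (gR k 5) = g 5 := key _ _ _ _ r6 e4 h5
  have e7 : φ (gR k 7) = g 7 := key _ _ _ _ r8 e6 h7
  have e8 : φ (gR k 8) = g 8 := key _ _ _ _ r14 (by rw [map_sub, map_one, e0]) h15
  have e9 : φ (gR k 9) = g 9 := key _ _ _ _ r16 (by rw [map_sub, map_one, e2]) h17
  have e10 : φ (gR k 10) = g 10 :=
    key _ _ _ _ r18 (by rw [map_sub, map_one, map_mul, e0, e2]) h19
  refine ⟨φ, fun i => ?_⟩
  fin_cases i
  exacts [e0, e1, e2, e3, e4, e5, e6, e7, e8, e9, e10]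

theorem fin_pres : ∃ (n : ℕ) (f : FreeAlgebra k (Fin n) →ₐ[k] R k), Function.Surjective f ∧
    ∃ S : Finset (FreeAlgebra k (Fin n)),
      ∀ x, f x = 0 ↔ x ∈ TwoSidedIdeal.span (S : Set (FreeAlgebra k (Fin n))) := by
  classical
  have hfι : ∀ i, FreeAlgebra.lift k (gR k) (FreeAlgebra.ι k i) = gR k i := fun i =>
    FreeAlgebra.lift_ι_apply _ _
  have hrel : ∀ r ∈ rels (FreeAlgebra.ι k : Fin 11 → FreeAlgebra k (Fin 11)),
      FreeAlgebra.lift k (gR k) r = 0 := by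
    have h1 : (fun i => FreeAlgebra.lift k (gR k) (FreeAlgebra.ι k i)) = gR k := funext hfι
    have h2 : Sat (fun i => FreeAlgebra.lift k (gR k) (FreeAlgebra.ι k i)) := by
      rw [h1]
      exact sat_gR k
    exact (rels_iff (k := k) (P := FreeAlgebra k (Fin 11)) (Q := R k)
      (FreeAlgebra.lift k (gR k)) (FreeAlgebra.ι k)).2 h2
  refine ⟨11, FreeAlgebra.lift k (gR k), ?_,
    (rels (FreeAlgebra.ι k : Fin 11 → FreeAlgebra k (Fin 11))).toFinset, fun x => ⟨?_, ?_⟩⟩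
  · rw [← AlgHom.range_eq_top]
    have hm : ∀ i, gR k i ∈ (FreeAlgebra.lift k (gR k)).range := fun i => ⟨_, hfι i⟩
    refine gen k _ (hm 0) (hm 1) (hm 2) (hm 3) (fun i => ?_) (fun i => ?_) (hm 8) (hm 9) (hm 10)
    · fin_cases i
      · exact hm 4
      · exact hm 6
    · fin_cases i
      · exact hm 5
      · exact hm 7
  · intro hx
    set I := TwoSidedIdeal.span
      ((rels (FreeAlgebra.ι k : Fin 11 → FreeAlgebra k (Fin 11))).toFinset :
        Set (FreeAlgebra k (Fin 11))) with hI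
    set π : FreeAlgebra k (Fin 11) →ₐ[k] I.ringCon.Quotient := I.ringCon.mkₐ k with hπ
    have hπ0 : ∀ z, π z = 0 ↔ z ∈ I := by
      intro z
      rw [TwoSidedIdeal.mem_iff, ← RingCon.eq]
      rfl
    obtain ⟨φ, hφ⟩ := univ_sat k (fun i => π (FreeAlgebra.ι k i))
      ((rels_iff (k := k) (P := FreeAlgebra k (Fin 11)) (Q := I.ringCon.Quotient)
        π (FreeAlgebra.ι k)).1 fun r hr => (hπ0 r).2
        (TwoSidedIdeal.subset_span (by
          rw [Finset.mem_coe, List.mem_toFinset]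
          exact hr)))
    have h1 : φ.comp (FreeAlgebra.lift k (gR k)) = π := by
      apply FreeAlgebra.hom_ext
      funext i
      show φ (FreeAlgebra.lift k (gR k) (FreeAlgebra.ι k i)) = π (FreeAlgebra.ι k i)
      rw [hfι, hφ]
    rw [← hπ0, ← h1]
    show φ (FreeAlgebra.lift k (gR k) x) = 0
    rw [hx, map_zero]
  · intro hx
    have h1 : TwoSidedIdeal.span
        ((rels (FreeAlgebra.ι k : Fin 11 → FreeAlgebra k (Fin 11))).toFinset :
          Set (FreeAlgebra k (Fin 11))) ≤ TwoSidedIdeal.ker (FreeAlgebra.lift k (gR k)) := by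
      rw [TwoSidedIdeal.span_le]
      intro r hr
      rw [Finset.mem_coe, List.mem_toFinset] at hr
      rw [SetLike.mem_coe, TwoSidedIdeal.mem_ker]
      exact hrel r hr
    exact TwoSidedIdeal.mem_ker _ |>.1 (h1 hx)

end Pool.Agent.Work.MP_16d7ed_al.SL
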