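import Mathlib

/-!
# MODULE FreeU (M): free groups have the unique product property

PROOF (Bowditch: free groups are diffuse). Write `|x| = FreeGroup.norm x` (length of the reduced word).
(1) CANCELLATION. For `x y : FreeGroup α` there are words `p c q` with
    `x.toWord = p ++ c`, `y.toWord = FreeGroup.invRev c ++ q`, `(x*y).toWord = p ++ q`.
    Induction on the word of `x` from the right (or on `n = |y|`): if `p ++ y.toWord` is reduced take `c = []`,
    otherwise the last letter of `x` is inverse to the first letter of `y`; cancel both.
    Hence `|x*y| = |x| + |y| - 2|c|`.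
(2) LEMMA. If `|c*h| <= |c|` and `|c*h⁻¹| <= |c|` then `h = 1`.
    From (1) for `c*h`: `2|a| >= |h|` where the word of `c` ends with `a` and the word of `h` begins with `invRev a`.
    From (1) for `c*h⁻¹`: `2|b| >= |h|`, the word of `c` ends with `b` and the word of `h⁻¹` begins with `invRev b`,
    i.e. the word of `h` ends with `b`. Both `a` and `b` are suffixes of `c`; let `s` be the suffix of `c` of length
    `m = ceil(|h|/2)` (a suffix of `a` and of `b`). Then the word `w` of `h` satisfies: the first `m` letters of `w` are
    `invRev s`... (precisely: `w` begins with `invRev a`, whose FIRST `m` letters are `invRev` of the last `m` letters of `a`)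
    and the last `m` letters of `w` are `s`. If `|h| = 2m`: `w = invRev s ++ s`, so `h = 1`. If `|h| = 2m-1` (m >= 1): the
    middle letter of `w` is the last letter of `invRev s` = inverse of the first letter of `s`, and it is the first letter
    of `s`: a letter is never equal to its inverse (`(i, b) ≠ (i, !b)`), contradiction.
(3) UNIQUE PRODUCTS. Let `A, B` be nonempty finite sets. Choose `a ∈ A, b ∈ B` with `|a*b|` maximal. If also
    `a*b = a'*b'` with `a' ∈ A, b' ∈ B`, put `h = b⁻¹*b'`. Then `(a*b)*h = a*b'` and
    `(a*b)*h⁻¹ = a'*b'*(b'⁻¹*b) = a'*b` have norm `<= |a*b|` by maximality, so `h = 1` by (2), `b = b'` and `a = a'`.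
    This is `UniqueMul A B a b`; `UniqueProds` is the class with field
    `uniqueMul_of_nonempty : A.Nonempty → B.Nonempty → ∃ a0 ∈ A, ∃ b0 ∈ B, UniqueMul A B a0 b0`.
-/

set_option autoImplicit false

namespace Pool.Agent.Work.MP_16d7ed_al.SL

open FreeGroup (invRev isReduced_toWord toWord_inj toWord_mk mul_mk mk_toWord inv_mk toWord_inv invRev_invRev invRev_append invRev_length toWord_eq_nil_iff)

private theorem canc_list {α : Type*} : ∀ L2 L1 : List (α × Bool), FreeGroup.IsReduced L1 → FreeGroup.IsReduced L2 →
    ∃ p c q, L1 = p ++ c ∧ L2 = invRev c ++ q ∧ FreeGroup.IsReduced (p ++ q) := by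
  intro L2
  induction L2 with
  | nil =>
    intro L1 h1 _
    exact ⟨L1, [], [], by simp, by simp, by simpa using h1⟩
  | cons b L2 ih =>
    intro L1 h1 h2
    by_cases h : FreeGroup.IsReduced (L1 ++ b :: L2)
    · exact ⟨L1, [], b :: L2, by simp, by simp, h⟩
    · rcases List.eq_nil_or_concat L1 with rfl | ⟨L1', a, rfl⟩
      · exact absurd h2 h
      · rw [List.concat_eq_append] at h h1 ⊢
        have hab : a.1 = b.1 ∧ a.2 ≠ b.2 := by
          by_contra hn
          apply h
          unfold FreeGroup.IsReduced at h1 h2 ⊢
          rw [List.isChain_append]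
          refine ⟨h1, h2, ?_⟩
          intro x hx y hy
          simp only [List.getLast?_append, List.getLast?_singleton, Option.some_or, Option.mem_def,
            Option.some.injEq, List.head?_cons] at hx hy
          subst hx hy
          intro h3
          by_contra h4
          exact hn ⟨h3, h4⟩
        have h1' : FreeGroup.IsReduced L1' := by
          unfold FreeGroup.IsReduced at h1 ⊢
          exact h1.left_of_append
        have h2' : FreeGroup.IsReduced L2 := by
          unfold FreeGroup.IsReduced at h2 ⊢
          exact List.IsChain.right_of_append (l₁ := [b]) (by simpa using h2)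
        obtain ⟨p, c, q, e1, e2, e3⟩ := ih L1' h1' h2'
        refine ⟨p, c ++ [a], q, ?_, ?_, e3⟩
        · rw [e1, List.append_assoc]
        · rw [invRev_append, e2]
          have hb : b = (a.1, !a.2) := by
            apply Prod.ext
            · exact hab.1.symm
            · have := hab.2
              revert this
              cases a.2 <;> cases b.2 <;> simp
          rw [hb]
          simp [invRev]

private theorem canc {α : Type*} [DecidableEq α] (x y : FreeGroup α) :
    ∃ p c q, x.toWord = p ++ c ∧ y.toWord = invRev c ++ q ∧ (x * y).toWord = p ++ q := by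
  obtain ⟨p, c, q, h1, h2, h3⟩ := canc_list y.toWord x.toWord isReduced_toWord isReduced_toWord
  refine ⟨p, c, q, h1, h2, ?_⟩
  rw [← h3.reduce_eq, ← toWord_mk, toWord_inj]
  have hx : x = FreeGroup.mk p * FreeGroup.mk c := by
    rw [mul_mk, ← h1, mk_toWord]
  have hy : y = (FreeGroup.mk c)⁻¹ * FreeGroup.mk q := by
    rw [inv_mk, mul_mk, ← h2, mk_toWord]
  rw [hx, hy, ← mul_mk]
  group

private theorem key {α : Type*} [DecidableEq α] (c h : FreeGroup α) (h1 : FreeGroup.norm (c * h) ≤ FreeGroup.norm c)
    (h2 : FreeGroup.norm (c * h⁻¹) ≤ FreeGroup.norm c) : h = 1 := by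
  obtain ⟨p, a, q, e1, e2, e3⟩ := canc c h
  obtain ⟨p', b, q', f1, f2, f3⟩ := canc c h⁻¹
  unfold FreeGroup.norm at h1 h2
  rw [e3, e1, List.length_append, List.length_append] at h1
  rw [f3, f1, List.length_append, List.length_append] at h2
  have hq : q.length ≤ a.length := by omega
  have hq' : q'.length ≤ b.length := by omega
  have f2' : h.toWord = invRev q' ++ b := by
    rw [toWord_inv] at f2
    have := congrArg invRev f2
    rwa [invRev_invRev, invRev_append, invRev_invRev] at this
  have hn1 : h.toWord.length = a.length + q.length := by
    rw [e2, List.length_append, invRev_length]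
  have hn2 : h.toWord.length = b.length + q'.length := by
    rw [f2', List.length_append, invRev_length, add_comm]
  have g1 : ∀ i, i < a.length → h.toWord[i]? = (c.toWord.reverse[i]?).map fun g => (g.1, !g.2) := by
    intro i hi
    rw [e2, e1, List.getElem?_append_left (by rw [invRev_length]; exact hi)]
    unfold invRev
    rw [← List.map_reverse, List.getElem?_map, List.reverse_append,
      List.getElem?_append_left (by rw [List.length_reverse]; exact hi)]
  have g2 : ∀ i, i < b.length → h.toWord.reverse[i]? = c.toWord.reverse[i]? := by
    intro i hi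
    rw [f2', f1, List.reverse_append, List.reverse_append,
      List.getElem?_append_left (by rw [List.length_reverse]; exact hi),
      List.getElem?_append_left (by rw [List.length_reverse]; exact hi)]
  by_contra hne
  have hlen : 0 < h.toWord.length := by
    rw [List.length_pos_iff]
    intro h0
    exact hne (toWord_eq_nil_iff.1 h0)
  have hD : ∀ i, i < a.length → ∃ x, c.toWord.reverse[i]? = some x := by
    intro i hi
    have : i < c.toWord.reverse.length := by
      rw [List.length_reverse, e1, List.length_append]
      omega
    exact ⟨_, List.getElem?_eq_getElem this⟩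
  obtain ⟨m, hm | hm⟩ := Nat.even_or_odd' (h.toWord.length - 1)
  · -- odd length
    have ha : m < a.length := by omega
    have hb : m < b.length := by omega
    obtain ⟨x, hx⟩ := hD m ha
    have k1 := g1 m ha
    have k2 := g2 m hb
    rw [hx] at k1 k2
    rw [List.getElem?_reverse (by omega), show h.toWord.length - 1 - m = m by omega, k1] at k2
    simp only [Option.map_some, Option.some.injEq, Prod.ext_iff] at k2
    have := k2.2
    revert this
    cases x.2 <;> simp
  · -- even length
    have ha : m < a.length := by omega
    have hb : m < b.length := by omega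
    obtain ⟨x, hx⟩ := hD m ha
    have k1 := g1 m ha
    have k2 := g2 m hb
    rw [hx] at k1 k2
    rw [List.getElem?_reverse (by omega), show h.toWord.length - 1 - m = m + 1 by omega] at k2
    have hr := isReduced_toWord (x := h)
    unfold FreeGroup.IsReduced at hr
    rw [List.isChain_iff_getElem] at hr
    have hr' := hr m (by omega)
    have l1 : h.toWord[m] = (x.1, !x.2) := by
      have := List.getElem?_eq_getElem (l := h.toWord) (i := m) (by omega)
      rw [k1] at this
      simpa using this.symm
    have l2 : h.toWord[m + 1] = x := by
      have := List.getElem?_eq_getElem (l := h.toWord) (i := m + 1) (by omega)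
      rw [k2] at this
      simpa using this.symm
    rw [l1, l2] at hr'
    have := hr' rfl
    revert this
    cases x.2 <;> simp

theorem free_uniqueProds (α : Type*) : UniqueProds (FreeGroup α) := by
  classical
  refine ⟨fun {A B} hA hB => ?_⟩
  obtain ⟨⟨a, b⟩, hab, hmax⟩ := Finset.exists_max_image (A ×ˢ B) (fun z => FreeGroup.norm (z.1 * z.2))
    (hA.product hB)
  rw [Finset.mem_product] at hab
  refine ⟨a, hab.1, b, hab.2, ?_⟩
  intro a' b' ha' hb' he
  have h1 : b⁻¹ * b' = 1 := by
    apply key (a * b)
    · have := hmax (a, b') (Finset.mem_product.2 ⟨hab.1, hb'⟩)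
      have e : a * b * (b⁻¹ * b') = a * b' := by group
      rw [e]
      exact this
    · have := hmax (a', b) (Finset.mem_product.2 ⟨ha', hab.2⟩)
      have e : a * b * (b⁻¹ * b')⁻¹ = a' * b := by
        rw [← he]
        group
      rw [e]
      exact this
  have h2 : b' = b := by
    rw [inv_mul_eq_one] at h1
    exact h1.symm
  subst h2
  exact ⟨mul_right_cancel he, rfl⟩

end Pool.Agent.Work.MP_16d7ed_al.SL
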