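import Pool.Agent.Work.MP_16d7ed_al.SL.Defs

/-!
# MODULE InvA (M): an invariant ideal contains polynomials in one variable

PROOF. (0) `J ≠ ⊥`: take `0 ≠ a ∈ J`, `a = b/s`; then `algebraMap b = a * algebraMap s ∈ J`, `b ≠ 0`. So
`J0 = {b : B k | algebraMap b ∈ J}` is a nonzero ideal of `B k` with `autB k (rho g) b ∈ J0` for `b ∈ J0` (`smul_alg`).
(1) FIRST STATEMENT (`x = vec 1 0`). For `b : B k` let `Y(b) = image of b.support (coeff support) under v ↦ (toAdd v).2`, a
finite set of integers. Choose `0 ≠ b ∈ J0` with `Y(b).card` minimal. Claim `Y(b)` has one element. Otherwise let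
`j1 ≠ j2` be in `Y(b)`. `σ = autB k (e 0)`, `σ (single (i,j) c) = single (i+2j,j) c`. Put
`b' = σ b - mono (2 j1, 0) * b ∈ J0`. For the part `b_j` of `b` with second exponent `j` (b = sum_j b_j) one has
`σ b_j = mono(2j,0) * b_j`, so `b' = sum_j (mono(2j,0) - mono(2 j1,0)) * b_j`: `Y(b') ⊆ Y(b) \ {j1}` and the part with
exponent `j2` is `(mono(2 j2,0) - mono(2 j1,0)) * b_{j2} ≠ 0` (`B k` is a domain: `MonoidAlgebra` over a domain with
`UniqueProds V`; `2 j1 ≠ 2 j2`). So `b' ≠ 0` has smaller card, contradiction.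
(Coefficientwise: coeff of `b'` at `(i,j)` is `b(i-2j,j) - b(i-2j1,j)`. It is zero for all `i` when `j = j1`; for `j = j2`
it is nonzero for some `i`, otherwise `b(.,j2)` would be periodic with period `2(j1-j2) ≠ 0`, impossible for a nonzero
finitely supported function. This avoids the domain property.)
(2) So `b = sum over i of c_i single (i, j)` for a fixed `j`, finitely many `i`. Multiply by `mono (N, -j)` with `N` large:
`p = sum c_i X^(i+N)`, `p ≠ 0`, `aeval (m k (vec 1 0)) p = algebraMap (mono (N,-j) * b) ∈ J` (`m (vec n 0) = m (vec 1 0)^n`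
for natural `n`).
(3) SECOND STATEMENT: the same with the coordinates exchanged and `e 1`, `autB k (e 1) (single (i,j) c) = single (i,j+2i) c`.
(The two proofs are the same; one may prove a general lemma with the two coordinate functions and a chosen `u : MulAut V`.)
-/

set_option autoImplicit false

namespace Pool.Agent.Work.MP_16d7ed_al.SL

open Multiplicative Polynomial

variable (k : Type*) [Field k]

private theorem autB_coeff (u : MulAut V) (b : B k) (v : V) :
    (autB k u b).coeff v = b.coeff (u.symm v) :=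
  MonoidAlgebra.coeff_domCongr (R := k) u b v

private theorem mono_mul_coeff (g : V) (b : B k) (v : V) :
    (mono k g * b).coeff v = b.coeff (g⁻¹ * v) := by
  rw [mono, MonoidAlgebra.coeff_single_mul_apply, one_mul]

private theorem core (J0 : Ideal (B k)) (u : MulAut V) (f g : V → ℤ) (w : ℤ → V)
    (hJ : ∀ b ∈ J0, autB k u b ∈ J0) (hu : ∀ v, u v = v * w (f v))
    (hf : ∀ v n, f (v * w n) = f v) (hg : ∀ v n, g (v * w n) = g v + 2 * n) (h0 : J0 ≠ ⊥) :
    ∃ b ∈ J0, b ≠ 0 ∧ ∃ j, ∀ v ∈ b.coeff.support, f v = j := by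
  classical
  have hf' : ∀ v n, f (v * (w n)⁻¹) = f v := by
    intro v n
    have := hf (v * (w n)⁻¹) n
    rwa [inv_mul_cancel_right, eq_comm] at this
  have hg' : ∀ v n, g (v * (w n)⁻¹) = g v - 2 * n := by
    intro v n
    have := hg (v * (w n)⁻¹) n
    rw [inv_mul_cancel_right] at this
    linarith
  have hus : ∀ v, u.symm v = v * (w (f v))⁻¹ := by
    intro v
    rw [MulEquiv.symm_apply_eq, hu, hf', inv_mul_cancel_right]
  have hex : ∃ n : ℕ, ∃ b ∈ J0, b ≠ 0 ∧ (b.coeff.support.image f).card = n := by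
    obtain ⟨b, hb, hb0⟩ := Submodule.exists_mem_ne_zero_of_ne_bot h0
    exact ⟨_, b, hb, hb0, rfl⟩
  obtain ⟨b, hb, hb0, hbn⟩ := Nat.find_spec hex
  have hmin : ∀ b' ∈ J0, b' ≠ 0 → (b.coeff.support.image f).card ≤ (b'.coeff.support.image f).card := by
    intro b' hb' hb0'
    rw [hbn]
    exact Nat.find_min' hex ⟨b', hb', hb0', rfl⟩
  refine ⟨b, hb, hb0, ?_⟩
  by_contra hcon
  push Not at hcon
  have hsne : b.coeff.support.Nonempty := by
    rw [Finsupp.support_nonempty_iff]
    intro h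
    exact hb0 (MonoidAlgebra.coeff_eq_zero.1 h)
  obtain ⟨v0, hv0⟩ := hsne
  obtain ⟨v1, hv1, hne⟩ := hcon (f v0)
  -- two different values, sorted
  obtain ⟨j1, j2, hj1, hj2, hlt⟩ : ∃ j1 j2, j1 ∈ b.coeff.support.image f ∧
      j2 ∈ b.coeff.support.image f ∧ j1 < j2 := by
    rcases lt_or_gt_of_ne hne with h | h
    · exact ⟨f v1, f v0, Finset.mem_image_of_mem f hv1, Finset.mem_image_of_mem f hv0, h⟩
    · exact ⟨f v0, f v1, Finset.mem_image_of_mem f hv0, Finset.mem_image_of_mem f hv1, h⟩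
  set b' : B k := autB k u b - mono k (w j1) * b with hb'
  have hb'J : b' ∈ J0 := J0.sub_mem (hJ b hb) (J0.mul_mem_left _ hb)
  have hco : ∀ v, b'.coeff v = b.coeff (v * (w (f v))⁻¹) - b.coeff (v * (w j1)⁻¹) := by
    intro v
    have h1 : b'.coeff v = (autB k u b).coeff v - (mono k (w j1) * b).coeff v := rfl
    rw [h1, autB_coeff, mono_mul_coeff, hus, mul_comm (w j1)⁻¹ v]
  -- b' is nonzero
  have hb'0 : b' ≠ 0 := by
    intro hz
    have hper : ∀ v, f v = j2 → b.coeff (v * (w j2)⁻¹) = b.coeff (v * (w j1)⁻¹) := by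
      intro v hv
      have h1 := hco v
      rw [hz, hv] at h1
      have h2 : (0 : B k).coeff v = 0 := rfl
      rw [h2] at h1
      exact sub_eq_zero.1 h1.symm
    have hne2 : (b.coeff.support.filter fun v => f v = j2).Nonempty := by
      obtain ⟨v, hv, hfv⟩ := Finset.mem_image.1 hj2
      exact ⟨v, Finset.mem_filter.2 ⟨hv, hfv⟩⟩
    obtain ⟨v, hv, hmax⟩ := Finset.exists_max_image _ g hne2
    rw [Finset.mem_filter] at hv
    have h1 := hper (v * w j2) (by rw [hf]; exact hv.2)
    rw [mul_inv_cancel_right] at h1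
    have h2 : v * w j2 * (w j1)⁻¹ ∈ b.coeff.support.filter fun v => f v = j2 := by
      rw [Finset.mem_filter, Finsupp.mem_support_iff, ← h1]
      exact ⟨Finsupp.mem_support_iff.1 hv.1, by rw [hf', hf]; exact hv.2⟩
    have h3 := hmax _ h2
    rw [hg', hg] at h3
    linarith
  -- the image is smaller
  have hsub : b'.coeff.support.image f ⊆ (b.coeff.support.image f).erase j1 := by
    intro j hj
    obtain ⟨v, hv, hfv⟩ := Finset.mem_image.1 hj
    rw [Finsupp.mem_support_iff, hco] at hv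
    rw [Finset.mem_erase]
    refine ⟨?_, ?_⟩
    · intro h
      apply hv
      rw [hfv, h, sub_self]
    · by_cases h : b.coeff (v * (w (f v))⁻¹) = 0
      · have h2 : b.coeff (v * (w j1)⁻¹) ≠ 0 := by
          intro h3
          apply hv
          rw [h, h3, sub_self]
        rw [← hfv, ← hf' v j1]
        exact Finset.mem_image_of_mem f (Finsupp.mem_support_iff.2 h2)
      · rw [← hfv, ← hf' v (f v)]
        exact Finset.mem_image_of_mem f (Finsupp.mem_support_iff.2 h)
  have h4 := hmin b' hb'J hb'0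
  have h5 := Finset.card_le_card hsub
  rw [Finset.card_erase_of_mem hj1] at h5
  have h6 : 0 < (b.coeff.support.image f).card := Finset.card_pos.2 ⟨j1, hj1⟩
  omega

private theorem comap_ne (J : Ideal (A k)) (h0 : J ≠ ⊥) :
    J.comap (algebraMap (B k) (A k)) ≠ ⊥ := by
  obtain ⟨a, ha, ha0⟩ := Submodule.exists_mem_ne_zero_of_ne_bot h0
  obtain ⟨⟨b, s⟩, hbs⟩ := IsLocalization.surj (S k) a
  simp only at hbs
  intro hbot
  have hbJ : b ∈ J.comap (algebraMap (B k) (A k)) := by
    rw [Ideal.mem_comap, ← hbs]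
    exact J.mul_mem_right _ ha
  rw [hbot, Ideal.mem_bot] at hbJ
  rw [hbJ, map_zero] at hbs
  have hs := IsLocalization.map_units (A k) s
  exact ha0 ((hs.mul_left_eq_zero).1 hbs)

private theorem m_pow (v : V) (n : ℕ) : m k (v ^ n) = m k v ^ n := by
  induction n with
  | zero => rw [pow_zero, pow_zero, m_one]
  | succ n ih => rw [pow_succ, pow_succ, m_mul, ih]

/-- the polynomial -/
private theorem poly (J : Ideal (A k)) (b : B k) (hb : b ∈ J.comap (algebraMap (B k) (A k)))
    (hb0 : b ≠ 0) (x t : V) (g : V → ℤ) (hg : ∀ v ∈ b.coeff.support, v = x ^ (g v) * t) :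
    ∃ p : k[X], p ≠ 0 ∧ aeval (m k x) p ∈ J := by
  classical
  obtain ⟨N, hN⟩ : ∃ N : ℕ, ∀ v ∈ b.coeff.support, 0 ≤ g v + N := by
    refine ⟨∑ v ∈ b.coeff.support, (g v).natAbs, fun v hv => ?_⟩
    have h1 : (g v).natAbs ≤ ∑ v ∈ b.coeff.support, (g v).natAbs :=
      Finset.single_le_sum (f := fun v => (g v).natAbs) (fun _ _ => Nat.zero_le _) hv
    have h2 : -((g v).natAbs : ℤ) ≤ g v := by omega
    have h3 : ((g v).natAbs : ℤ) ≤ ((∑ v ∈ b.coeff.support, (g v).natAbs : ℕ) : ℤ) := by
      exact_mod_cast h1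
    linarith
  have hinj : ∀ v ∈ b.coeff.support, ∀ v' ∈ b.coeff.support,
      (g v + N).toNat = (g v' + N).toNat → v = v' := by
    intro v hv v' hv' h
    have h1 := hN v hv
    have h2 := hN v' hv'
    have h3 : g v = g v' := by omega
    rw [hg v hv, hg v' hv', h3]
  refine ⟨∑ v ∈ b.coeff.support, monomial (g v + N).toNat (b.coeff v), ?_, ?_⟩
  · intro hz
    have hsne : b.coeff.support.Nonempty := by
      rw [Finsupp.support_nonempty_iff]
      intro h
      exact hb0 (MonoidAlgebra.coeff_eq_zero.1 h)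
    obtain ⟨v0, hv0⟩ := hsne
    have h1 : (∑ v ∈ b.coeff.support, monomial (g v + N).toNat (b.coeff v) : k[X]).coeff
        (g v0 + N).toNat = 0 := by rw [hz, coeff_zero]
    rw [finsetSum_coeff, Finset.sum_eq_single_of_mem v0 hv0] at h1
    · rw [coeff_monomial, if_pos rfl] at h1
      exact Finsupp.mem_support_iff.1 hv0 h1
    · intro v hv hne
      rw [coeff_monomial, if_neg]
      intro h
      exact hne (hinj v hv v0 hv0 h)
  · have hbsum : b = ∑ v ∈ b.coeff.support, b.coeff v • mono k v := by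
      conv_lhs => rw [← MonoidAlgebra.sum_coeff_single b]
      rw [Finsupp.sum]
      refine Finset.sum_congr rfl fun v _ => ?_
      rw [mono, MonoidAlgebra.smul_single, smul_eq_mul, mul_one]
    have hkey : aeval (m k x) (∑ v ∈ b.coeff.support, monomial (g v + N).toNat (b.coeff v)) =
        algebraMap (B k) (A k) (mono k (x ^ N * t⁻¹) * b) := by
      conv_rhs => rw [hbsum]
      rw [map_sum, Finset.mul_sum, map_sum]
      refine Finset.sum_congr rfl fun v hv => ?_
      rw [aeval_monomial, mul_smul_comm, ← mono_mul, ← m_pow]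
      have e1 : x ^ N * t⁻¹ * v = x ^ (g v + N).toNat := by
        have h1 := hN v hv
        conv_lhs => rw [hg v hv]
        rw [← zpow_natCast x ((g v + N).toNat), Int.toNat_of_nonneg h1, zpow_add, zpow_natCast]
        rw [mul_assoc, mul_comm t⁻¹, mul_assoc, mul_inv_cancel, mul_one, mul_comm]
      rw [e1]
      rw [Algebra.smul_def, map_mul, ← IsScalarTower.algebraMap_apply k (B k) (A k)]
      rfl
    rw [hkey]
    have : mono k (x ^ N * t⁻¹) * b ∈ J.comap (algebraMap (B k) (A k)) :=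
      Ideal.mul_mem_left _ _ hb
    exact this

private theorem comap_aut (J : Ideal (A k)) (hJ : ∀ (g : Grp) (a : A k), a ∈ J → g • a ∈ J)
    (i : Fin 2) (b : B k) (hb : b ∈ J.comap (algebraMap (B k) (A k))) :
    autB k (e i) b ∈ J.comap (algebraMap (B k) (A k)) := by
  rw [Ideal.mem_comap] at hb ⊢
  have h := hJ (FreeGroup.of i) _ hb
  rw [smul_alg] at h
  have h2 : rho (FreeGroup.of i) = e i := by simp [rho]
  rwa [h2] at h

theorem inv_x (J : Ideal (A k)) (hJ : ∀ (g : Grp) (a : A k), a ∈ J → g • a ∈ J) (h0 : J ≠ ⊥) :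
    ∃ p : k[X], p ≠ 0 ∧ aeval (m k (vec 1 0)) p ∈ J := by
  obtain ⟨b, hb, hb0, j, hj⟩ := core k (J.comap (algebraMap (B k) (A k))) (e 0)
    (fun v => (toAdd v).2) (fun v => (toAdd v).1) (fun n => vec (2 * n) 0)
    (fun b hb => comap_aut k J hJ 0 b hb)
    (by
      intro v
      apply Multiplicative.toAdd.injective
      simp only [e, vec, MulEquiv.coe_mk, Equiv.coe_fn_mk, toAdd_mul, toAdd_ofAdd]
      ext <;> simp)
    (by intro v n; simp [vec])
    (by intro v n; simp [vec])
    (comap_ne k J h0)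
  refine poly k J b hb hb0 (vec 1 0) (vec 0 j) (fun v => (toAdd v).1) ?_
  intro v hv
  have h1 : (toAdd v).2 = j := hj v hv
  apply Multiplicative.toAdd.injective
  ext
  · simp [vec]
  · simp [vec, h1]

theorem inv_y (J : Ideal (A k)) (hJ : ∀ (g : Grp) (a : A k), a ∈ J → g • a ∈ J) (h0 : J ≠ ⊥) :
    ∃ p : k[X], p ≠ 0 ∧ aeval (m k (vec 0 1)) p ∈ J := by
  obtain ⟨b, hb, hb0, j, hj⟩ := core k (J.comap (algebraMap (B k) (A k))) (e 1)
    (fun v => (toAdd v).1) (fun v => (toAdd v).2) (fun n => vec 0 (2 * n))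
    (fun b hb => comap_aut k J hJ 1 b hb)
    (by
      intro v
      apply Multiplicative.toAdd.injective
      simp only [e, vec, MulEquiv.coe_mk, Equiv.coe_fn_mk, toAdd_mul, toAdd_ofAdd]
      ext <;> simp)
    (by intro v n; simp [vec])
    (by intro v n; simp [vec])
    (comap_ne k J h0)
  refine poly k J b hb hb0 (vec 0 1) (vec j 0) (fun v => (toAdd v).2) ?_
  intro v hv
  have h1 : (toAdd v).1 = j := hj v hv
  apply Multiplicative.toAdd.injective
  ext
  · simp [vec, h1]
  · simp [vec]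

end Pool.Agent.Work.MP_16d7ed_al.SL
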