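import Pool.Agent.Work.MP_16d7ed_al.SL.InvA

/-!
# MODULE InvB (M): `A` has no nontrivial invariant ideals

PROOF. Suppose `J ≠ ⊤`; take a maximal ideal `M ≥ J`, `κ = A/M` (a field), `χ : A → κ` the quotient map; `X = χ (m (vec 1 0))`,
`Y = χ (m (vec 0 1))` are units (`m` is multiplicative, `m v * m v⁻¹ = 1`). `p, q` from `inv_x`, `inv_y`.
(1) For `n : ℕ`, `g = (of 0)^n`, `rho g (vec 0 1) = vec (2n) 1`: `g • aeval (m (vec 0 1)) q = aeval (m (vec (2n) 1)) q ∈ J`
(`smul_m`, `g •` is a `k`-algebra map), so `Y_n = X^(2n) * Y` is a root of `q` in `κ` (`q` mapped to `κ`, `q ≠ 0`): finitely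
many values, so `Y_i = Y_j` for some `i < j` and `X^(2(j-i)) = 1`. So `X^N = 1`, `N >= 1`.
(2) In the same way (`e 1`, `p`) `Y^N' = 1`, `N' >= 1`. Replace both by `N N'`.
(3) RELATION. In a field `κ`, `X^N = Y^N = 1`, `N >= 1`: there are coprime integers `c, d` with `X^c * Y^d = 1` (zpow).
`rootsOfUnity N κ` is cyclic (instance), generator `ζ`: `X = ζ^a`, `Y = ζ^b` (integers). If `a = b = 0` take `(c,d) = (1,0)`.
Otherwise `g = gcd(a,b) ≠ 0`, `c = b/g`, `d = -a/g` are coprime and `a c + b d = 0`.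
(4) `v = vec c d` is primitive, `χ (m v) = X^c Y^d = 1` (m is multiplicative: `m (vec c d) = ` product of zpowers of units), so
`m v - 1 ∈ M`, but `m v - 1` is a unit of `A` (`isUnit_m_sub_one`): contradiction.
-/

set_option autoImplicit false

namespace Pool.Agent.Work.MP_16d7ed_al.SL

open Multiplicative Polynomial

variable (k : Type*) [Field k]

private theorem v_eq (v : V) : v = vec 1 0 ^ (toAdd v).1 * vec 0 1 ^ (toAdd v).2 := by
  apply Multiplicative.toAdd.injective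
  simp only [vec, toAdd_mul, toAdd_zpow, toAdd_ofAdd]
  ext <;> simp

private theorem rho_pow0 (n : ℕ) : rho (FreeGroup.of 0 ^ n) (vec 0 1) = vec (2 * n) 1 := by
  induction n with
  | zero => simp
  | succ n ih =>
    rw [pow_succ', map_mul, MulAut.mul_apply, ih]
    simp only [rho, FreeGroup.lift_apply_of]
    change vec (2 * (n : ℤ) + 2 * 1) 1 = _
    push_cast
    ring_nf

private theorem rho_pow1 (n : ℕ) : rho (FreeGroup.of 1 ^ n) (vec 1 0) = vec 1 (2 * n) := by
  induction n with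
  | zero => simp
  | succ n ih =>
    rw [pow_succ', map_mul, MulAut.mul_apply, ih]
    simp only [rho, FreeGroup.lift_apply_of]
    change vec 1 (2 * (n : ℤ) + 2 * 1) = _
    push_cast
    ring_nf

private theorem smul_aeval (g : Grp) (v : V) (p : k[X]) :
    g • aeval (m k v) p = aeval (m k (rho g v)) p := by
  rw [← smul_m]
  have := Polynomial.aeval_algHom_apply (MulSemiringAction.toAlgHom k (A k) g) (m k v) p
  exact this.symm

/-- a root relation gives finite order -/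
private theorem fin_ord {κ : Type*} [Field κ] (χ : A k →+* κ) (J : Ideal (A k))
    (hJ : ∀ (g : Grp) (a : A k), a ∈ J → g • a ∈ J) (hχ : ∀ a ∈ J, χ a = 0)
    (cu : V →* κˣ) (hcu : ∀ v, (cu v : κ) = χ (m k v)) (v w : V) (f : ℕ → Grp)
    (hf : ∀ n, rho (f n) v = w ^ (2 * n) * v)
    (p : k[X]) (hp : p ≠ 0) (hpJ : aeval (m k v) p ∈ J) : ∃ N : ℕ, 0 < N ∧ cu w ^ N = 1 := by
  classical
  have hroot : ∀ n : ℕ, (cu (w ^ (2 * n) * v) : κ) ∈
      ((p.map (χ.comp (algebraMap k (A k)))).roots.toFinset : Set κ) := by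
    intro n
    rw [Finset.mem_coe, Multiset.mem_toFinset, Polynomial.mem_roots (Polynomial.map_ne_zero hp),
      Polynomial.IsRoot, Polynomial.eval_map, ← hf, hcu, ← Polynomial.hom_eval₂]
    apply hχ
    have := hJ (f n) _ hpJ
    rw [smul_aeval] at this
    exact this
  have hnot : ¬ Function.Injective (fun n : ℕ => (cu (w ^ (2 * n) * v) : κ)) := by
    intro hinj
    have h1 := Set.infinite_range_of_injective hinj
    apply h1
    apply Set.Finite.subset (Finset.finite_toSet _)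
    rintro _ ⟨n, rfl⟩
    exact hroot n
  simp only [Function.Injective, not_forall] at hnot
  obtain ⟨i, j, hij, hne⟩ := hnot
  have hu : cu (w ^ (2 * i) * v) = cu (w ^ (2 * j) * v) := Units.ext hij
  rw [map_mul, map_mul, mul_left_inj, map_pow, map_pow] at hu
  wlog hlt : i < j generalizing i j
  · exact this j i hij.symm (Ne.symm hne) hu.symm (by omega)
  · refine ⟨2 * j - 2 * i, by omega, ?_⟩
    have h2 : 2 * j = (2 * j - 2 * i) + 2 * i := by omega
    rw [h2, pow_add] at hu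
    exact (mul_eq_right.1 hu.symm)

private theorem coprime_rel (a b : ℤ) : ∃ c d : ℤ, IsCoprime c d ∧ a * c + b * d = 0 := by
  by_cases h : a = 0 ∧ b = 0
  · obtain ⟨rfl, rfl⟩ := h
    exact ⟨1, 0, isCoprime_one_left, by simp⟩
  · have hg : 0 < Int.gcd a b := Int.gcd_pos_iff.2 (by tauto)
    obtain ⟨a', b', h1, h2, h3⟩ := Int.exists_gcd_one hg
    generalize ((Int.gcd a b : ℕ) : ℤ) = e at h2 h3
    refine ⟨b', -a', ?_, ?_⟩
    · exact (Int.isCoprime_iff_gcd_eq_one.2 h1).symm.neg_right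
    · rw [h2, h3]
      ring

private theorem unit_rel {κ : Type*} [Field κ] (x y : κˣ) (N N' : ℕ) (hN : 0 < N) (hN' : 0 < N')
    (hx : x ^ N = 1) (hy : y ^ N' = 1) : ∃ c d : ℤ, IsCoprime c d ∧ x ^ c * y ^ d = 1 := by
  haveI : NeZero (N * N') := ⟨(Nat.mul_pos hN hN').ne'⟩
  obtain ⟨ζ, hζ⟩ := IsCyclic.exists_generator (α := rootsOfUnity (N * N') κ)
  have hx' : x ∈ rootsOfUnity (N * N') κ := by
    rw [mem_rootsOfUnity, pow_mul, hx, one_pow]
  have hy' : y ∈ rootsOfUnity (N * N') κ := by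
    rw [mem_rootsOfUnity, mul_comm, pow_mul, hy, one_pow]
  obtain ⟨a, ha⟩ := hζ ⟨x, hx'⟩
  obtain ⟨b, hb⟩ := hζ ⟨y, hy'⟩
  obtain ⟨c, d, hcd, h⟩ := coprime_rel a b
  refine ⟨c, d, hcd, ?_⟩
  have h1 : (ζ : κˣ) ^ a = x := by
    have := congrArg Subtype.val ha
    simpa using this
  have h2 : (ζ : κˣ) ^ b = y := by
    have := congrArg Subtype.val hb
    simpa using this
  rw [← h1, ← h2, ← zpow_mul, ← zpow_mul, ← zpow_add, h, zpow_zero]

private theorem core {κ : Type*} [Field κ] (χ : A k →+* κ) (J : Ideal (A k))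
    (hJ : ∀ (g : Grp) (a : A k), a ∈ J → g • a ∈ J) (h0 : J ≠ ⊥) (hχ : ∀ a ∈ J, χ a = 0) : False := by
  obtain ⟨p, hp, hpJ⟩ := inv_x k J hJ h0
  obtain ⟨q, hq, hqJ⟩ := inv_y k J hJ h0
  let mh : V →* κ :=
    { toFun := fun v => χ (m k v)
      map_one' := by rw [m_one, map_one]
      map_mul' := fun v w => by rw [m_mul, map_mul] }
  let cu : V →* κˣ := mh.toHomUnits
  have hcu : ∀ v, (cu v : κ) = χ (m k v) := fun v => rfl
  obtain ⟨N, hN, hx⟩ := fin_ord k χ J hJ hχ cu hcu (vec 0 1) (vec 1 0) (fun n => FreeGroup.of 0 ^ n)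
    (fun n => by
      rw [rho_pow0]
      apply Multiplicative.toAdd.injective
      simp [vec]) q hq hqJ
  obtain ⟨N', hN', hy⟩ := fin_ord k χ J hJ hχ cu hcu (vec 1 0) (vec 0 1) (fun n => FreeGroup.of 1 ^ n)
    (fun n => by
      rw [rho_pow1]
      apply Multiplicative.toAdd.injective
      simp [vec]) p hp hpJ
  obtain ⟨c, d, hcd, h⟩ := unit_rel _ _ N N' hN hN' hx hy
  have h1 : cu (vec c d) = 1 := by
    rw [v_eq (vec c d), map_mul, map_zpow, map_zpow]
    exact h
  have h2 : IsUnit (m k (vec c d) - 1) := isUnit_m_sub_one k (v := vec c d) hcd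
  have h3 : χ (m k (vec c d) - 1) = 0 := by
    rw [map_sub, map_one, ← hcu, h1]
    simp
  exact (h2.map χ).ne_zero h3

theorem inv_ideal (J : Ideal (A k)) (hJ : ∀ (g : Grp) (a : A k), a ∈ J → g • a ∈ J) (h0 : J ≠ ⊥) :
    J = ⊤ := by
  by_contra hJ1
  obtain ⟨M, hM, hJM⟩ := Ideal.exists_le_maximal J hJ1
  letI : Field (A k ⧸ M) := Ideal.Quotient.field M
  exact core k (Ideal.Quotient.mk M) J hJ h0 fun a ha => Ideal.Quotient.eq_zero_iff_mem.2 (hJM ha)

end Pool.Agent.Work.MP_16d7ed_al.SL
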