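import Pool.Agent.Work.MP_16d7ed_al.SL.Defs

/-!
# MODULE Sanov (S-M): Sanov's theorem, the action of `F_2` on `Z^2` is faithful

PROOF (ping-pong for the free product of two infinite cyclic groups). Let `X 0 = {v : |b| < |a|}`, `X 1 = {v : |a| < |b|}`
(`v = (a,b)`). For `n ≠ 0`: `(e 0)^n v = (a+2nb, b)`; if `|a| < |b|` then `|a+2nb| >= 2|n||b| - |a| > |b|`, so
`(e 0)^n (X 1) ⊆ X 0`; symmetrically `(e 1)^n (X 0) ⊆ X 1`. Use `Monoid.CoprodI.lift_injective_of_ping_pong` with
`H i = Multiplicative ℤ` (or `FreeGroup Unit`) and `freeGroupEquivCoprodI` (see the proof of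
`FreeGroup.injective_lift_of_ping_pong` in `Mathlib/GroupTheory/CoprodI.lean`, line 935-1000, which can be copied), the
hypothesis `3 ≤ #ι ∨ ∃ i, 3 ≤ #(H i)` holds because `H 0` is infinite. (Alternatively a direct induction on words.)
-/

set_option autoImplicit false

namespace Pool.Agent.Work.MP_16d7ed_al.SL

open Multiplicative

private theorem e0_zpow (n : ℤ) (v : V) :
    (e 0 ^ n) v = vec ((toAdd v).1 + 2 * n * (toAdd v).2) (toAdd v).2 := by
  induction n using Int.induction_on generalizing v with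
  | zero => simp [vec]
  | succ n ih =>
    rw [zpow_add, zpow_one, MulAut.mul_apply]
    have h1 : e 0 v = vec ((toAdd v).1 + 2 * (toAdd v).2) (toAdd v).2 := rfl
    rw [h1, ih]
    simp only [vec, toAdd_ofAdd]
    congr 2
    ring
  | pred n ih =>
    rw [zpow_sub, zpow_one, MulAut.mul_apply]
    have h1 : (e 0)⁻¹ v = vec ((toAdd v).1 - 2 * (toAdd v).2) (toAdd v).2 := rfl
    rw [h1, ih]
    simp only [vec, toAdd_ofAdd]
    congr 2
    ring

private theorem e1_zpow (n : ℤ) (v : V) :
    (e 1 ^ n) v = vec (toAdd v).1 ((toAdd v).2 + 2 * n * (toAdd v).1) := by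
  induction n using Int.induction_on generalizing v with
  | zero => simp [vec]
  | succ n ih =>
    rw [zpow_add, zpow_one, MulAut.mul_apply]
    have h1 : e 1 v = vec (toAdd v).1 ((toAdd v).2 + 2 * (toAdd v).1) := rfl
    rw [h1, ih]
    simp only [vec, toAdd_ofAdd]
    congr 2
    ring
  | pred n ih =>
    rw [zpow_sub, zpow_one, MulAut.mul_apply]
    have h1 : (e 1)⁻¹ v = vec (toAdd v).1 ((toAdd v).2 - 2 * (toAdd v).1) := rfl
    rw [h1, ih]
    simp only [vec, toAdd_ofAdd]
    congr 2
    ring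

private theorem abs_aux (a b n : ℤ) (hn : n ≠ 0) (h : |a| < |b|) : |b| < |a + 2 * n * b| := by
  have h1 : |2 * n * b| = 2 * |n| * |b| := by rw [abs_mul, abs_mul]; simp
  have h2 : |2 * n * b| ≤ |a + 2 * n * b| + |a| := by
    have := abs_sub (a + 2 * n * b) a
    have h3 : a + 2 * n * b - a = 2 * n * b := by ring
    rwa [h3] at this
  have h4 : 1 ≤ |n| := Int.one_le_abs hn
  have h5 : 0 ≤ |b| := abs_nonneg b
  nlinarith

/-- the ping-pong sets -/
private def X : Fin 2 → Set V
  | 0 => {v | |(toAdd v).2| < |(toAdd v).1|}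
  | 1 => {v | |(toAdd v).1| < |(toAdd v).2|}

open Cardinal in
open scoped Pointwise Function in
theorem rho_injective : Function.Injective rho := by
  have h0 : rho = (Monoid.CoprodI.lift fun i => FreeGroup.lift fun _ : Unit => e i).comp
      (freeGroupEquivCoprodI (ι := Fin 2)).toMonoidHom := by
    apply FreeGroup.ext_hom
    intro i
    simp [rho]
  rw [h0, MonoidHom.coe_comp]
  refine Function.Injective.comp ?_ (MulEquiv.injective freeGroupEquivCoprodI)
  have hpp : Pairwise fun i j => ∀ h : FreeGroup Unit, h ≠ 1 →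
      (FreeGroup.lift fun _ : Unit => e i) h • X j ⊆ X i := by
    intro i j hij h hne
    obtain ⟨n, rfl⟩ : ∃ n : ℤ, h = FreeGroup.of () ^ n :=
      ⟨FreeGroup.freeGroupUnitEquivInt h, (FreeGroup.freeGroupUnitEquivInt.left_inv h).symm⟩
    have hn : n ≠ 0 := by
      rintro rfl
      exact hne (zpow_zero _)
    rw [map_zpow, FreeGroup.lift_apply_of]
    rintro w ⟨v, hv, rfl⟩
    show (e i ^ n) v ∈ X i
    fin_cases i <;> fin_cases j
    · exact absurd rfl hij
    · show (e 0 ^ n) v ∈ X 0
      rw [e0_zpow]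
      exact abs_aux _ _ n hn hv
    · show (e 1 ^ n) v ∈ X 1
      rw [e1_zpow]
      exact abs_aux _ _ n hn hv
    · exact absurd rfl hij
  refine Monoid.CoprodI.lift_injective_of_ping_pong
    (fun i : Fin 2 => FreeGroup.lift fun _ : Unit => e i) ?_ X ?_ ?_ hpp
  · right
    refine ⟨0, ?_⟩
    rw [FreeGroup.freeGroupUnitEquivInt.cardinal_eq, Cardinal.mk_denumerable]
    exact Cardinal.natCast_le_aleph0
  · intro i
    fin_cases i
    · exact ⟨vec 1 0, by show |(0 : ℤ)| < |(1 : ℤ)|; decide⟩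
    · exact ⟨vec 0 1, by show |(0 : ℤ)| < |(1 : ℤ)|; decide⟩
  · intro i j hij
    show Disjoint (X i) (X j)
    rw [Set.disjoint_left]
    intro v hv hw
    fin_cases i <;> fin_cases j
    · exact absurd rfl hij
    · exact lt_asymm (show |(toAdd v).2| < |(toAdd v).1| from hv) hw
    · exact lt_asymm (show |(toAdd v).1| < |(toAdd v).2| from hv) hw
    · exact absurd rfl hij

end Pool.Agent.Work.MP_16d7ed_al.SL
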