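import Mathlib

/-!
# MODULE SkewDom (S-M, pure Mathlib): skew group rings of unique product groups over domains are domains

PROOF: as for `MonoidAlgebra` in `Mathlib/Algebra/MonoidAlgebra/NoZeroDivisors.lean`.
Let `f, g` be nonzero; their supports are nonempty finite sets, so there are `a ∈ f.support`, `b ∈ g.support` with
`UniqueMul f.support g.support a b`. The coefficient of `f*g` at `a*b` is (SkewMonoidAlgebra.coeff_mul)
`f.coeff a * a • g.coeff b`, which is nonzero because `x ↦ a • x` is injective with `a • 0 = 0` (group action) and `A` has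
no zero divisors.
-/

set_option autoImplicit false

namespace Pool.Agent.Work.MP_16d7ed_al.SL

private theorem coeff_mul_unique {A G : Type*} [Ring A] [Group G] [MulSemiringAction G A]
    {f g : SkewMonoidAlgebra A G} {a b : G} (ha : a ∈ f.support) (hb : b ∈ g.support)
    (h : UniqueMul f.support g.support a b) :
    (f * g).coeff (a * b) = f.coeff a * a • g.coeff b := by
  classical
  rw [SkewMonoidAlgebra.coeff_mul]
  simp only [SkewMonoidAlgebra.sum_def']
  rw [Finset.sum_eq_single a, Finset.sum_eq_single b, if_pos rfl]
  · intro b' hb' hne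
    rw [if_neg]
    intro he
    exact hne (h ha hb' he).2
  · intro hb'
    exact absurd hb hb'
  · intro a' ha' hne
    refine Finset.sum_eq_zero fun b' hb' => ?_
    rw [if_neg]
    intro he
    exact hne (h ha' hb' he).1
  · intro ha'
    exact absurd ha ha'

theorem skew_noZeroDivisors (A G : Type*) [Ring A] [NoZeroDivisors A] [Group G] [UniqueProds G]
    [MulSemiringAction G A] : NoZeroDivisors (SkewMonoidAlgebra A G) := by
  refine ⟨fun {f g} hfg => ?_⟩
  by_contra hcon
  push Not at hcon
  obtain ⟨hf, hg⟩ := hcon
  have hf' : f.support.Nonempty := by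
    rw [Finset.nonempty_iff_ne_empty, Ne, SkewMonoidAlgebra.support_eq_empty]
    exact hf
  have hg' : g.support.Nonempty := by
    rw [Finset.nonempty_iff_ne_empty, Ne, SkewMonoidAlgebra.support_eq_empty]
    exact hg
  obtain ⟨a, ha, b, hb, h⟩ := UniqueProds.uniqueMul_of_nonempty hf' hg'
  have h1 := coeff_mul_unique ha hb h
  rw [hfg] at h1
  have h2 : f.coeff a ≠ 0 := SkewMonoidAlgebra.mem_support_iff.1 ha
  have h3 : g.coeff b ≠ 0 := SkewMonoidAlgebra.mem_support_iff.1 hb
  have h4 : a • g.coeff b ≠ 0 := by
    intro h5
    apply h3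
    have h6 := congrArg (fun x => a⁻¹ • x) h5
    simpa using h6
  exact mul_ne_zero h2 h4 h1.symm

end Pool.Agent.Work.MP_16d7ed_al.SL
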