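import Mathlib

/-!
# MODULE SkewSim (M, pure Mathlib): simplicity of skew group rings

PROOF. Let `I` be a nonzero two-sided ideal. Choose `0 ≠ r ∈ I` with `r.support.card` minimal; multiplying on the right by
`single g⁻¹ 1` for some `g` in the support we may assume `1 ∈ r.support` (right multiplication by `single g⁻¹ 1` translates
the support, `coeff_mul_single`; the card is the same).
For `a : A` put `r' = single 1 a * r - r * single 1 a ∈ I`; `r'.coeff g = (a - g • a) * r.coeff g`
(`coeff_single_one_mul`, `coeff_mul_single_one`, commutativity). So the support of `r'` is contained in that of `r` and does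
not contain `1`: by minimality `r' = 0`. So for every `g ∈ r.support` and every `a`: `(a - g • a) * r.coeff g = 0`, hence
`g • a = a` for all `a`, hence `g = 1` (`hfaith`). So `r = single 1 c`, `c ≠ 0`.
Let `J = {a : A | single 1 a ∈ I}`, an ideal of `A` (nonzero since `c ∈ J`), and invariant:
`single g 1 * single 1 a * single g⁻¹ 1 = single 1 (g • a)`. By `hinv` `J = ⊤`, so `1 = single 1 1 ∈ I`, `I = ⊤`.
`IsSimpleRing` = `⟨⟨isSimpleOrder on TwoSidedIdeal⟩⟩` (needs also nontriviality of the ring, clear since `A` is a domain).
-/

set_option autoImplicit false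

namespace Pool.Agent.Work.MP_16d7ed_al.SL

open SkewMonoidAlgebra in
private theorem exists_single_mem {A G : Type*} [CommRing A] [IsDomain A] [Group G]
    [MulSemiringAction G A]
    (hfaith : ∀ g : G, (∀ a : A, g • a = a) → g = 1)
    (I : TwoSidedIdeal (SkewMonoidAlgebra A G)) (hI : I ≠ ⊥) :
    ∃ c : A, c ≠ 0 ∧ single (1 : G) c ∈ I := by
  classical
  have hex : ∃ r, r ∈ I ∧ r ≠ 0 := by
    by_contra hcon
    push Not at hcon
    apply hI
    rw [eq_bot_iff]
    intro x hx
    rw [hcon x hx]
    exact (⊥ : TwoSidedIdeal (SkewMonoidAlgebra A G)).zero_mem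
  have hP : ∃ n : ℕ, ∃ r, r ∈ I ∧ r ≠ 0 ∧ r.support.card = n := by
    obtain ⟨r, h1, h2⟩ := hex
    exact ⟨_, r, h1, h2, rfl⟩
  obtain ⟨r0, hr0I, hr0, hr0c⟩ := Nat.find_spec hP
  have hmin : ∀ r, r ∈ I → r.support.card < Nat.find hP → r = 0 := by
    intro r hr hc
    by_contra h0
    exact Nat.find_min hP hc ⟨r, hr, h0, rfl⟩
  -- translate
  obtain ⟨g0, hg0⟩ : ∃ g, r0.coeff g ≠ 0 := by
    by_contra hcon
    push Not at hcon
    exact hr0 (SkewMonoidAlgebra.ext fun g => by simp [hcon g])
  obtain ⟨r, hrI, hr1, hrc⟩ : ∃ r, r ∈ I ∧ r.coeff (1 : G) ≠ 0 ∧ r.support.card = Nat.find hP := by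
    refine ⟨r0 * single g0⁻¹ 1, I.mul_mem_right _ _ hr0I, ?_, ?_⟩
    · simpa using hg0
    · rw [SkewMonoidAlgebra.support_mul_single _ _ _ (by intro g y; simp), Finset.card_map]
      exact hr0c
  have key : ∀ a : A, single (1 : G) a * r - r * single 1 a = 0 := by
    intro a
    apply hmin
    · exact I.sub_mem (I.mul_mem_left _ _ hrI) (I.mul_mem_right _ _ hrI)
    · rw [← hrc]
      apply Finset.card_lt_card
      rw [Finset.ssubset_iff_of_subset]
      · refine ⟨1, SkewMonoidAlgebra.mem_support_iff.2 hr1, ?_⟩
        rw [SkewMonoidAlgebra.notMem_support_iff, SkewMonoidAlgebra.coeff_sub,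
          Finsupp.sub_apply, SkewMonoidAlgebra.coeff_single_one_mul,
          SkewMonoidAlgebra.coeff_mul_single_one, one_smul]
        ring
      · intro g hg
        rw [SkewMonoidAlgebra.mem_support_iff] at hg ⊢
        intro h0
        apply hg
        rw [SkewMonoidAlgebra.coeff_sub,
          Finsupp.sub_apply, SkewMonoidAlgebra.coeff_single_one_mul,
          SkewMonoidAlgebra.coeff_mul_single_one, h0]
        ring
  refine ⟨r.coeff 1, hr1, ?_⟩
  have hr : r = single 1 (r.coeff 1) := by
    apply SkewMonoidAlgebra.ext
    intro g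
    by_cases hg : g = 1
    · subst hg; simp [SkewMonoidAlgebra.coeff_single_apply]
    · rw [SkewMonoidAlgebra.coeff_single_apply, if_neg (fun h => hg h.symm)]
      by_contra h0
      apply hg
      apply hfaith
      intro a
      have h1 := congrArg (fun s => SkewMonoidAlgebra.coeff s g) (key a)
      simp only [SkewMonoidAlgebra.coeff_sub,
          Finsupp.sub_apply, SkewMonoidAlgebra.coeff_single_one_mul,
          SkewMonoidAlgebra.coeff_mul_single_one, SkewMonoidAlgebra.coeff_zero,
          Finsupp.zero_apply] at h1
      have h2 : (a - g • a) * r.coeff g = 0 := by rw [← h1]; ring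
      rcases mul_eq_zero.1 h2 with h3 | h3
      · exact (sub_eq_zero.1 h3).symm
      · exact absurd h3 h0
  rw [← hr]
  exact hrI

open SkewMonoidAlgebra in
theorem skew_simple (A G : Type*) [CommRing A] [IsDomain A] [Group G] [MulSemiringAction G A]
    (hfaith : ∀ g : G, (∀ a : A, g • a = a) → g = 1)
    (hinv : ∀ J : Ideal A, (∀ (g : G) (a : A), a ∈ J → g • a ∈ J) → J ≠ ⊥ → J = ⊤) :
    IsSimpleRing (SkewMonoidAlgebra A G) := by
  classical
  have hnt : Nontrivial (SkewMonoidAlgebra A G) := inferInstance
  refine ⟨{ toNontrivial := ?_, eq_bot_or_eq_top := ?_ }⟩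
  · infer_instance
  · intro I
    by_cases hI : I = ⊥
    · exact Or.inl hI
    right
    obtain ⟨c, hc, hcI⟩ := exists_single_mem hfaith I hI
    let J : Ideal A :=
      { carrier := {a | single (1 : G) a ∈ I}
        add_mem' := by
          intro a b ha hb
          simp only [Set.mem_setOf_eq] at ha hb ⊢
          rw [SkewMonoidAlgebra.single_add]
          exact I.add_mem ha hb
        zero_mem' := by
          simp only [Set.mem_setOf_eq]
          rw [SkewMonoidAlgebra.single_zero]
          exact I.zero_mem
        smul_mem' := by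
          intro a b hb
          simp only [Set.mem_setOf_eq] at hb ⊢
          have : single (1 : G) (a • b) = single 1 a * single 1 b := by
            rw [SkewMonoidAlgebra.single_mul_single]
            simp
          rw [this]
          exact I.mul_mem_left _ _ hb }
    have hJ : J = ⊤ := by
      apply hinv J
      · intro g a ha
        have ha' : single (1 : G) a ∈ I := ha
        show single (1 : G) (g • a) ∈ I
        have : single (1 : G) (g • a) = single g 1 * single 1 a * single g⁻¹ 1 := by
          rw [SkewMonoidAlgebra.single_mul_single, SkewMonoidAlgebra.single_mul_single]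
          simp
        rw [this]
        exact I.mul_mem_right _ _ (I.mul_mem_left _ _ ha')
      · intro h0
        apply hc
        have : c ∈ J := hcI
        rw [h0] at this
        simpa using this
    have h1 : (1 : A) ∈ J := by rw [hJ]; trivial
    have h2 : single (1 : G) (1 : A) ∈ I := h1
    rw [SkewMonoidAlgebra.single_one_one] at h2
    rw [eq_top_iff]
    intro x _
    have := I.mul_mem_left x 1 h2
    rwa [mul_one] at this

end Pool.Agent.Work.MP_16d7ed_al.SL
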