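import Pool.Agent.Work.MP_16d7ed_al.SL.FreeU
import Pool.Agent.Work.MP_16d7ed_al.SL.SkewDom
import Pool.Agent.Work.MP_16d7ed_al.SL.SkewSim
import Pool.Agent.Work.MP_16d7ed_al.SL.Sanov
import Pool.Agent.Work.MP_16d7ed_al.SL.InvB
import Pool.Agent.Work.MP_16d7ed_al.SL.FP

set_option autoImplicit false

namespace Pool.Agent.Work.MP_16d7ed_al.SL

open Multiplicative

theorem isDomain_B (k : Type*) [Field k] : IsDomain (B k) := inferInstance

theorem mono_injective (k : Type*) [Field k] : Function.Injective (mono k) :=
  MonoidAlgebra.of_injective (R := k) (M := V)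

theorem S_le_nonZeroDivisors (k : Type*) [Field k] : S k ≤ nonZeroDivisors (B k) := by
  rw [S, Submonoid.closure_le]
  rintro b ⟨v, hv, rfl⟩
  rw [SetLike.mem_coe, mem_nonZeroDivisors_iff_ne_zero]
  intro h
  rw [sub_eq_zero, ← mono_one k] at h
  have := mono_injective k h
  subst this
  obtain ⟨c, d, hcd⟩ := hv
  simp at hcd

theorem isDomain_A (k : Type*) [Field k] : IsDomain (A k) :=
  IsLocalization.isDomain_of_le_nonZeroDivisors (A k) (S_le_nonZeroDivisors k)

theorem m_injective (k : Type*) [Field k] : Function.Injective (m k) :=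
  (IsLocalization.injective (A k) (S_le_nonZeroDivisors k)).comp (mono_injective k)

theorem faithful (k : Type*) [Field k] (g : Grp) (h : ∀ a : A k, g • a = a) : g = 1 := by
  apply rho_injective
  rw [map_one]
  ext1 v
  apply m_injective k
  rw [← smul_m, h]
  rfl

theorem not_finite (k : Type*) [Field k] : ¬ Module.Finite k (R k) := by
  intro hfin
  have hdom := isDomain_A k
  let T : (Grp →₀ k) →ₗ[k] R k :=
    (SkewMonoidAlgebra.coeffLinearEquiv (k := A k) (G := Grp) (S := k)).symm.toLinearMap ∘ₗ
      Finsupp.mapRange.linearMap (Algebra.linearMap k (A k))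
  have hT : Function.Injective T := by
    intro x y hxy
    have hxy' := (SkewMonoidAlgebra.coeffLinearEquiv (k := A k) (G := Grp) (S := k)).symm.injective hxy
    ext g
    have := DFunLike.congr_fun hxy' g
    simp only [Finsupp.mapRange.linearMap_apply, Finsupp.mapRange_apply,
      Algebra.linearMap_apply] at this
    exact (algebraMap k (A k)).injective this
  have h0 : IsNoetherian k (R k) := isNoetherian_of_isNoetherianRing_of_finite k (R k)
  have h1 : Module.Finite k (Grp →₀ k) := Module.Finite.of_injective T hT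
  have h2 : Infinite Grp := inferInstance
  exact Module.Finite.not_linearIndependent_of_infinite _ (Finsupp.basisSingleOne (R := k) (ι := Grp)).linearIndependent

theorem simple_domain.{u} (k : Type u) [Field k] :
    ∃ (R : Type u) (_ : Ring R) (_ : Algebra k R),
      IsSimpleRing R ∧ IsDomain R ∧ ¬ Module.Finite k R ∧
      ∃ (n : ℕ) (f : FreeAlgebra k (Fin n) →ₐ[k] R), Function.Surjective f ∧
        ∃ S : Finset (FreeAlgebra k (Fin n)),
          ∀ x, f x = 0 ↔ x ∈ TwoSidedIdeal.span (S : Set (FreeAlgebra k (Fin n))) := by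
  have := isDomain_A k
  have : UniqueProds Grp := free_uniqueProds (Fin 2)
  have : NoZeroDivisors (R k) := skew_noZeroDivisors (A k) Grp
  have : Nontrivial (R k) := inferInstance
  refine ⟨R k, inferInstance, inferInstance, ?_, ?_, not_finite k, fin_pres k⟩
  · exact skew_simple (A k) Grp (faithful k) (inv_ideal k)
  · exact NoZeroDivisors.to_isDomain _

end Pool.Agent.Work.MP_16d7ed_al.SL
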