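import Pool.Agent.Work.MP_16d7ed_al.SL.Eucl

/-!
# MODULE Univ (M-L): the universal property of `R`

PROOF.
(1) `X, Y` commute, so there is a monoid hom `θ : V →* Pˣ`, `θ v = X^(toAdd v).1 * Y^(toAdd v).2` (`Commute` lemmas, zpow).
(2) `τ : Grp →* Pˣ`, `τ = FreeGroup.lift T`. For `i = 0, 1` and all `v`: `T i * θ v * (T i)⁻¹ = θ (e i v)`: both sides are monoid
homs in `v`, so it is enough (`hom_eq`, or direct) to check `v = vec 1 0`, `vec 0 1`: these are the four relations.
By induction over the free group (`FreeGroup.induction_on`): `τ g * θ v = θ (rho g v) * τ g` for all `g, v`.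
(3) For primitive `v` the element `θ v - 1` of `P` is a unit: `prim_orbit`: `v = rho g w` or its inverse, `w` one of three
vectors, `θ w - 1` is a unit (`X - 1`, `Y - 1`, `X*Y - 1`), `θ (rho g w) - 1 = τ g * (θ w - 1) * (τ g)⁻¹` is a unit, and
`θ u⁻¹ - 1 = - θ u⁻¹ * (θ u - 1)` is a unit when `θ u - 1` is.
(4) `φB : B k →ₐ[k] P := MonoidAlgebra.lift k V P (Units.coeHom P ∘ θ)` (check the argument order in Mathlib), `φB (mono v) = θ v`.
Every `s ∈ S k` is mapped to a unit (closure induction). `A k = OreLocalization (S k) (B k)`; use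
`OreLocalization.universalHom (φB : B k →+* P) (fS : S k →* Pˣ) hf : A k →+* P` (P noncommutative is allowed), `fS` = the map
to units (`IsUnit.liftRight` style: restrict the monoid hom to `S k` and lift to units). `φA (algebraMap b) = φB b`.
It is a `k`-algebra map.
(5) `φA (g • a) * τ g = τ g * φA a` for all `a`: both sides `φA (g • ·)` and `τ g * φA · * (τ g)⁻¹` are ring homs `A → P` which
agree on `algebraMap b` (`smul_alg`; on `B` it is enough to check monomials and constants: `MonoidAlgebra` ext), and ring homs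
out of an Ore localization into a ring that agree on numerators are equal (`OreLocalization.universalHom_unique`).
(6) `SkewMonoidAlgebra.liftNCAlgHom φA (Units.coeHom.comp τ) (5)` is the required map; on `single 1 a` it is `φA a`
(`liftNC_single`), on `single g 1` it is `τ g`.
-/

set_option autoImplicit false

namespace Pool.Agent.Work.MP_16d7ed_al.SL

open Multiplicative

variable (k : Type*) [Field k]

section thetaSec

variable {P : Type*} [Ring P] (X Y : Pˣ) (T : Fin 2 → Pˣ)

private def theta (hXY : X * Y = Y * X) : V →* Pˣ where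
  toFun v := X ^ (toAdd v).1 * Y ^ (toAdd v).2
  map_one' := by
    simp
  map_mul' v w := by
    have hc : Commute X Y := hXY
    simp only [toAdd_mul, Prod.fst_add, Prod.snd_add, zpow_add]
    have h1 : Commute (X ^ (toAdd w).1) (Y ^ (toAdd v).2) := hc.zpow_zpow _ _
    have h2 := h1.eq
    calc X ^ (toAdd v).1 * X ^ (toAdd w).1 * (Y ^ (toAdd v).2 * Y ^ (toAdd w).2)
        = X ^ (toAdd v).1 * (X ^ (toAdd w).1 * Y ^ (toAdd v).2) * Y ^ (toAdd w).2 := by
          simp only [mul_assoc]
      _ = X ^ (toAdd v).1 * (Y ^ (toAdd v).2 * X ^ (toAdd w).1) * Y ^ (toAdd w).2 := by rw [h2]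
      _ = _ := by simp only [mul_assoc]

private theorem theta_apply (hXY : X * Y = Y * X) (v : V) :
    theta X Y hXY v = X ^ (toAdd v).1 * Y ^ (toAdd v).2 := rfl

private theorem theta_vec (hXY : X * Y = Y * X) (a b : ℤ) :
    theta X Y hXY (vec a b) = X ^ a * Y ^ b := rfl

/-- homomorphisms out of `V` agree if they agree on the two basis vectors -/
private theorem hom_ext {H : Type*} [Group H] (f g : V →* H) (h1 : f (vec 1 0) = g (vec 1 0))
    (h2 : f (vec 0 1) = g (vec 0 1)) (v : V) : f v = g v := by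
  have hv : v = vec 1 0 ^ (toAdd v).1 * vec 0 1 ^ (toAdd v).2 := by
    apply Multiplicative.toAdd.injective
    simp only [vec, toAdd_mul, toAdd_zpow, toAdd_ofAdd]
    ext <;> simp
  rw [hv, map_mul, map_mul, map_zpow, map_zpow, map_zpow, map_zpow, h1, h2]

private theorem conj_gen (hXY : X * Y = Y * X)
    (h0X : T 0 * X = X * T 0) (h0Y : T 0 * Y = X ^ 2 * Y * T 0)
    (h1Y : T 1 * Y = Y * T 1) (h1X : T 1 * X = X * Y ^ 2 * T 1) (i : Fin 2) (v : V) :
    T i * theta X Y hXY v = theta X Y hXY (e i v) * T i := by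
  have key : ((MulAut.conj (T i)).toMonoidHom.comp (theta X Y hXY)) v
      = ((theta X Y hXY).comp (e i).toMonoidHom) v := by
    apply hom_ext
    · fin_cases i
      · show T 0 * (X ^ (1 : ℤ) * Y ^ (0 : ℤ)) * (T 0)⁻¹ = theta X Y hXY (vec (1 + 2 * 0) 0)
        rw [theta_vec]
        simp only [zpow_one, zpow_zero, mul_one, mul_zero, add_zero]
        rw [h0X, mul_inv_cancel_right]
      · show T 1 * (X ^ (1 : ℤ) * Y ^ (0 : ℤ)) * (T 1)⁻¹ = theta X Y hXY (vec 1 (0 + 2 * 1))
        rw [theta_vec]
        simp only [zpow_one, zpow_zero, mul_one, zero_add]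
        rw [h1X, mul_inv_cancel_right]
        norm_cast
    · fin_cases i
      · show T 0 * (X ^ (0 : ℤ) * Y ^ (1 : ℤ)) * (T 0)⁻¹ = theta X Y hXY (vec (0 + 2 * 1) 1)
        rw [theta_vec]
        simp only [zpow_one, zpow_zero, one_mul, zero_add, mul_one]
        rw [h0Y, mul_inv_cancel_right]
        norm_cast
      · show T 1 * (X ^ (0 : ℤ) * Y ^ (1 : ℤ)) * (T 1)⁻¹ = theta X Y hXY (vec 0 (1 + 2 * 0))
        rw [theta_vec]
        simp only [zpow_one, zpow_zero, one_mul, mul_zero, add_zero]
        rw [h1Y, mul_inv_cancel_right]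
  have key2 : T i * theta X Y hXY v * (T i)⁻¹ = theta X Y hXY (e i v) := key
  rw [← key2, inv_mul_cancel_right]

private theorem conj_all (hXY : X * Y = Y * X)
    (h0X : T 0 * X = X * T 0) (h0Y : T 0 * Y = X ^ 2 * Y * T 0)
    (h1Y : T 1 * Y = Y * T 1) (h1X : T 1 * X = X * Y ^ 2 * T 1) (g : Grp) :
    ∀ v : V, FreeGroup.lift T g * theta X Y hXY v = theta X Y hXY (rho g v) * FreeGroup.lift T g := by
  refine FreeGroup.induction_on g ?_ ?_ ?_ ?_
  · intro v; simp
  · intro i v
    have := conj_gen X Y T hXY h0X h0Y h1Y h1X i v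
    simpa [rho] using this
  · intro i ih v
    have h1 := ih (rho (FreeGroup.of i)⁻¹ v)
    have h2 : rho (FreeGroup.of i) (rho (FreeGroup.of i)⁻¹ v) = v := by simp
    rw [h2] at h1
    rw [map_inv (FreeGroup.lift T)]
    rw [inv_mul_eq_iff_eq_mul, ← mul_assoc, h1, mul_inv_cancel_right]
  · intro a b iha ihb v
    rw [map_mul (FreeGroup.lift T), map_mul rho, MulAut.mul_apply, mul_assoc, ihb, ← mul_assoc, iha,
      mul_assoc]

private theorem unit_orb (hXY : X * Y = Y * X)
    (h0X : T 0 * X = X * T 0) (h0Y : T 0 * Y = X ^ 2 * Y * T 0)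
    (h1Y : T 1 * Y = Y * T 1) (h1X : T 1 * X = X * Y ^ 2 * T 1)
    (hX : IsUnit ((X : P) - 1)) (hY : IsUnit ((Y : P) - 1)) (hZ : IsUnit ((X : P) * Y - 1))
    (v : V) (hv : Prim v) : IsUnit ((theta X Y hXY v : P) - 1) := by
  obtain ⟨g, w, hw, h⟩ := prim_orbit v hv
  have h3 : IsUnit ((theta X Y hXY w : P) - 1) := by
    rcases hw with rfl | rfl | rfl
    · rw [theta_vec]; simpa using hX
    · rw [theta_vec]; simpa using hY
    · rw [theta_vec]; simpa using hZ
  have h4 : IsUnit ((theta X Y hXY (rho g w) : P) - 1) := by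
    have h5 := conj_all X Y T hXY h0X h0Y h1Y h1X g w
    have h6 : (theta X Y hXY (rho g w) : P) - 1
        = (FreeGroup.lift T g : Pˣ) * ((theta X Y hXY w : P) - 1) * ((FreeGroup.lift T g)⁻¹ : Pˣ) := by
      have h7 : theta X Y hXY (rho g w) = FreeGroup.lift T g * theta X Y hXY w * (FreeGroup.lift T g)⁻¹ := by
        rw [h5, mul_inv_cancel_right]
      rw [h7]
      simp only [Units.val_mul, mul_sub, sub_mul, mul_one, Units.mul_inv]
    rw [h6]
    exact ((Units.isUnit _).mul h3).mul (Units.isUnit _)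
  rcases h with rfl | rfl
  · exact h4
  · have h8 : (theta X Y hXY (rho g w)⁻¹ : P) - 1
        = -(((theta X Y hXY (rho g w))⁻¹ : Pˣ) * ((theta X Y hXY (rho g w) : P) - 1)) := by
      rw [map_inv]
      simp only [mul_sub, Units.inv_mul, mul_one]
      abel
    rw [h8]
    exact ((Units.isUnit _).mul h4).neg

end thetaSec

theorem univ {P : Type*} [Ring P] [Algebra k P] (X Y : Pˣ) (T : Fin 2 → Pˣ)
    (hXY : X * Y = Y * X)
    (h0X : T 0 * X = X * T 0) (h0Y : T 0 * Y = X ^ 2 * Y * T 0)
    (h1Y : T 1 * Y = Y * T 1) (h1X : T 1 * X = X * Y ^ 2 * T 1)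
    (hX : IsUnit ((X : P) - 1)) (hY : IsUnit ((Y : P) - 1)) (hZ : IsUnit ((X : P) * Y - 1)) :
    ∃ φ : R k →ₐ[k] P, φ (SkewMonoidAlgebra.single 1 (m k (vec 1 0))) = X ∧
      φ (SkewMonoidAlgebra.single 1 (m k (vec 0 1))) = Y ∧
      ∀ i, φ (SkewMonoidAlgebra.single (FreeGroup.of i) 1) = T i := by
  classical
  set θ : V →* Pˣ := theta X Y hXY with hθ
  set τ : Grp →* Pˣ := FreeGroup.lift T with hτ
  have hconj := conj_all X Y T hXY h0X h0Y h1Y h1X
  have hunit := unit_orb X Y T hXY h0X h0Y h1Y h1X hX hY hZ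
  set φB : B k →ₐ[k] P := MonoidAlgebra.lift k P V ((Units.coeHom P).comp θ) with hφB
  have hφmono : ∀ v, φB (mono k v) = θ v := by
    intro v
    rw [hφB, mono, MonoidAlgebra.lift_single]
    simp
  have hS : ∀ s : S k, IsUnit (φB (s : B k)) := by
    rintro ⟨s, hs⟩
    have : S k ≤ (IsUnit.submonoid P).comap (φB : B k →* P) := by
      rw [S, Submonoid.closure_le]
      rintro b ⟨v, hv, rfl⟩
      show IsUnit (φB (mono k v - 1))
      rw [map_sub, map_one, hφmono]
      exact hunit v hv
    exact this hs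
  set fS : S k →* Pˣ := IsUnit.liftRight ((φB : B k →* P).comp (S k).subtype) hS with hfS
  have hf : ∀ s : S k, (φB : B k →+* P) s = fS s := by
    intro s
    rw [hfS, IsUnit.coe_liftRight]
    rfl
  set φA0 : A k →+* P := OreLocalization.universalHom (φB : B k →+* P) fS hf with hφA0
  have hA0 : ∀ b : B k, φA0 (algebraMap (B k) (A k) b) = φB b := by
    intro b
    exact OreLocalization.universalHom_commutes (φB : B k →+* P) fS hf
  have hAk : ∀ c : k, φA0 (algebraMap k (A k) c) = algebraMap k P c := by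
    intro c
    rw [IsScalarTower.algebraMap_apply k (B k) (A k), hA0, AlgHom.commutes]
  let φA : A k →ₐ[k] P := { φA0 with commutes' := hAk }
  have hφA : ∀ a, φA a = φA0 a := fun a => rfl
  have hcomm : ∀ {a : A k} {g : Grp}, φA (g • a) * ((Units.coeHom P).comp τ) g
      = ((Units.coeHom P).comp τ) g * φA a := by
    intro a g
    -- the two ring homs
    set c : P →+* P :=
      { toFun := fun p => (τ g : P) * p * ((τ g)⁻¹ : Pˣ)
        map_one' := by simp
        map_mul' := by
          intro p q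
          simp only [mul_assoc, Units.inv_mul_cancel_left]
        map_zero' := by simp
        map_add' := by
          intro p q
          simp only [mul_add, add_mul] } with hc
    have hc' : ∀ p, c p = (τ g : P) * p * ((τ g)⁻¹ : Pˣ) := fun p => rfl
    have hB : ∀ b : B k, φB (autB k (rho g) b) = c (φB b) := by
      intro b
      have hcalg : ∀ r : k, c (algebraMap k P r) = algebraMap k P r := by
        intro r
        rw [hc', ← Algebra.commutes, mul_assoc, Units.mul_inv, mul_one]
      let cA : P →ₐ[k] P := { c with commutes' := hcalg }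
      have : φB.comp (autB k (rho g) : B k →ₐ[k] B k) = cA.comp φB := by
        refine MonoidAlgebra.algHom_ext (fun v => ?_) (Subsingleton.elim _ _)
        show φB (autB k (rho g) (mono k v)) = c (φB (mono k v))
        rw [autB_mono, hφmono, hφmono, hc']
        have h5 : θ (rho g v) = τ g * θ v * (τ g)⁻¹ := by
          rw [hconj g v, mul_inv_cancel_right]
        rw [h5]
        simp only [Units.val_mul]
      exact DFunLike.congr_fun this b
    have h1 : φA0.comp (mapA k (rho g)) = c.comp φA0 := by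
      have hf1 : ∀ s : S k, ((c.comp φA0).comp (algebraMap (B k) (A k))) s
          = ((Units.map (c : P →* P)).comp fS) s := by
        intro s
        show c (φA0 (algebraMap (B k) (A k) s)) = c (fS s)
        rw [hA0, ← hf]
        rfl
      rw [OreLocalization.universalHom_unique _ _ hf1 (c.comp φA0) (fun r => rfl)]
      apply OreLocalization.universalHom_unique
      intro b
      show φA0 (mapA k (rho g) (algebraMap (B k) (A k) b)) = c (φA0 (algebraMap (B k) (A k) b))
      rw [mapA_alg, hA0, hA0]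
      exact hB b
    have h2 : φA0 (mapA k (rho g) a) = c (φA0 a) := RingHom.congr_fun h1 a
    show φA0 (mapA k (rho g) a) * (τ g : P) = (τ g : P) * φA0 a
    rw [h2, hc', mul_assoc, Units.inv_mul, mul_one]
  refine ⟨SkewMonoidAlgebra.liftNCAlgHom φA ((Units.coeHom P).comp τ) hcomm, ?_, ?_, ?_⟩
  · show SkewMonoidAlgebra.liftNC _ _ _ = _
    rw [SkewMonoidAlgebra.liftNC_single]
    show φA0 (algebraMap (B k) (A k) (mono k (vec 1 0))) * ((τ 1 : Pˣ) : P) = X
    rw [hA0, hφmono, map_one, hθ, theta_vec]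
    simp
  · show SkewMonoidAlgebra.liftNC _ _ _ = _
    rw [SkewMonoidAlgebra.liftNC_single]
    show φA0 (algebraMap (B k) (A k) (mono k (vec 0 1))) * ((τ 1 : Pˣ) : P) = Y
    rw [hA0, hφmono, map_one, hθ, theta_vec]
    simp
  · intro i
    show SkewMonoidAlgebra.liftNC _ _ _ = _
    rw [SkewMonoidAlgebra.liftNC_single]
    show φA0 1 * ((τ (FreeGroup.of i) : Pˣ) : P) = T i
    rw [map_one, one_mul, hτ, FreeGroup.lift_apply_of]

end Pool.Agent.Work.MP_16d7ed_al.SL
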